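import Mathlib

set_option autoImplicit false

namespace Pool.Agent.W968.SCx

open Finset Classical

/-- Few functions hit the set `E` rarely. -/
theorem few_bad {N b : ℕ} (hb : 0 < b) (E : Finset (Fin N × Fin b)) :
    (((univ : Finset (Fin N → Fin b)).filter fun g =>
      (4 * b) * (E.filter fun p => g p.1 = p.2).card ≤ E.card).card : ℝ) ≤
      (b : ℝ) ^ N * Real.exp (-((E.card : ℝ) / (4 * b))) := by
  have hb' : (0 : ℝ) < b := by exact_mod_cast hb
  let f : Fin N → Fin b → ℝ := fun i j => if (i, j) ∈ E then Real.exp (-1) else 1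
  let ec : Fin N → ℕ := fun i => (univ.filter fun j : Fin b => (i, j) ∈ E).card
  have hsumE : (E.card : ℝ) = ∑ i, (ec i : ℝ) := by
    have h1 : E.card = ∑ i : Fin N, (E.filter fun p => p.1 = i).card :=
      Finset.card_eq_sum_card_fiberwise (fun x _ => mem_univ _)
    rw [h1, Nat.cast_sum]
    refine Finset.sum_congr rfl fun i _ => ?_
    norm_cast
    refine Finset.card_bij (fun p _ => p.2) ?_ ?_ ?_
    · intro p hp
      simp only [mem_filter, mem_univ, true_and] at hp ⊢
      rw [← hp.2]; exact hp.1
    · intro p hp q hq h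
      simp only [mem_filter] at hp hq
      exact Prod.ext (hp.2.trans hq.2.symm) h
    · intro j hj
      simp only [mem_filter, mem_univ, true_and] at hj
      exact ⟨(i, j), by simp [hj], rfl⟩
  have hD : ∀ g : Fin N → Fin b, ∏ i, f i (g i) =
      Real.exp (-((E.filter fun p => g p.1 = p.2).card : ℝ)) := by
    intro g
    have h1 : (E.filter fun p => g p.1 = p.2).card
        = (univ.filter fun i : Fin N => (i, g i) ∈ E).card := by
      refine Finset.card_bij (fun p _ => p.1) ?_ ?_ ?_
      · intro p hp
        simp only [mem_filter, mem_univ, true_and] at hp ⊢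
        rw [hp.2]; exact hp.1
      · intro p hp q hq h
        simp only [mem_filter] at hp hq
        refine Prod.ext h ?_
        rw [← hp.2, ← hq.2, h]
      · intro j hj
        simp only [mem_filter, mem_univ, true_and] at hj
        exact ⟨(j, g j), by simp [hj], rfl⟩
    rw [h1]
    have h2 : ∀ i, f i (g i) = if (i, g i) ∈ E then Real.exp (-1) else 1 := fun i => rfl
    rw [Finset.prod_congr rfl fun i _ => h2 i, Finset.prod_ite]
    simp only [prod_const]
    rw [← Real.exp_nat_mul, mul_neg, mul_one, one_pow, mul_one]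
  have hsum : ∑ g : Fin N → Fin b, ∏ i, f i (g i) = ∏ i, ∑ j, f i j := by
    have := Finset.prod_univ_sum (fun _ : Fin N => (univ : Finset (Fin b))) f
    rw [this]
    refine Finset.sum_congr ?_ fun _ _ => rfl
    ext g; simp
  have hrow : ∀ i, ∑ j, f i j ≤ (b : ℝ) * Real.exp (-((ec i : ℝ) / (2 * b))) := by
    intro i
    have h1 : ∑ j, f i j = (b : ℝ) - (1 - Real.exp (-1)) * ec i := by
      have h2 : ∀ j, f i j = 1 - (1 - Real.exp (-1)) * (if (i, j) ∈ E then 1 else 0) := by
        intro j
        simp only [f]
        split_ifs <;> ring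
      rw [Finset.sum_congr rfl fun j _ => h2 j, Finset.sum_sub_distrib, ← Finset.mul_sum]
      simp [ec]
    have h3 : (1 : ℝ) / 2 ≤ 1 - Real.exp (-1) := by
      have h4 : (2 : ℝ) ≤ Real.exp 1 := by
        have := Real.add_one_le_exp (1 : ℝ)
        linarith
      rw [Real.exp_neg]
      have h5 : (Real.exp 1)⁻¹ ≤ (2 : ℝ)⁻¹ := inv_anti₀ (by norm_num) h4
      norm_num at h5 ⊢
      linarith
    have h6 := Real.add_one_le_exp (-((ec i : ℝ) / (2 * b)))
    have h7 : (0 : ℝ) ≤ ec i := Nat.cast_nonneg _
    rw [h1]
    have h8 : (b : ℝ) * (-((ec i : ℝ) / (2 * b)) + 1) ≤ b * Real.exp (-((ec i : ℝ) / (2 * b))) :=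
      mul_le_mul_of_nonneg_left h6 hb'.le
    refine le_trans ?_ h8
    have h9 : (b : ℝ) * (-((ec i : ℝ) / (2 * b)) + 1) = b - ec i / 2 := by
      field_simp
      ring
    rw [h9]
    nlinarith
  have htot : ∑ g : Fin N → Fin b, ∏ i, f i (g i) ≤
      (b : ℝ) ^ N * Real.exp (-((E.card : ℝ) / (2 * b))) := by
    rw [hsum]
    have h1 : ∏ i, ∑ j, f i j ≤ ∏ i : Fin N, ((b : ℝ) * Real.exp (-((ec i : ℝ) / (2 * b)))) := by
      refine Finset.prod_le_prod (fun i _ => ?_) fun i _ => hrow i
      refine Finset.sum_nonneg fun j _ => ?_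
      simp only [f]
      split_ifs <;> positivity
    refine h1.trans (le_of_eq ?_)
    rw [Finset.prod_mul_distrib, ← Real.exp_sum]
    simp only [prod_const, card_univ, Fintype.card_fin]
    congr 2
    rw [hsumE, Finset.sum_neg_distrib, Finset.sum_div]
  set B := (univ : Finset (Fin N → Fin b)).filter fun g =>
      (4 * b) * (E.filter fun p => g p.1 = p.2).card ≤ E.card with hB
  have hlow : (B.card : ℝ) * Real.exp (-((E.card : ℝ) / (4 * b))) ≤
      ∑ g : Fin N → Fin b, ∏ i, f i (g i) := by
    calc (B.card : ℝ) * Real.exp (-((E.card : ℝ) / (4 * b)))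
        = ∑ g ∈ B, Real.exp (-((E.card : ℝ) / (4 * b))) := by simp
      _ ≤ ∑ g ∈ B, ∏ i, f i (g i) := by
          refine Finset.sum_le_sum fun g hg => ?_
          rw [hD g]
          refine Real.exp_le_exp.2 (neg_le_neg ?_)
          simp only [hB, mem_filter, mem_univ, true_and] at hg
          rw [le_div_iff₀ (by positivity)]
          have : ((4 * b * (E.filter fun p => g p.1 = p.2).card : ℕ) : ℝ) ≤ (E.card : ℕ) := by
            exact_mod_cast hg
          push_cast at this
          linarith
      _ ≤ ∑ g : Fin N → Fin b, ∏ i, f i (g i) := by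
          refine Finset.sum_le_sum_of_subset_of_nonneg (subset_univ _) fun g _ _ => ?_
          rw [hD g]
          positivity
  have h1 := hlow.trans htot
  have h2 : Real.exp (-((E.card : ℝ) / (2 * b))) =
      Real.exp (-((E.card : ℝ) / (4 * b))) * Real.exp (-((E.card : ℝ) / (4 * b))) := by
    rw [← Real.exp_add]
    congr 1
    field_simp
    ring
  rw [h2, ← mul_assoc] at h1
  exact le_of_mul_le_mul_right h1 (Real.exp_pos _)

/-- Greedy covering. -/
theorem greedy {β : Type*} {N b : ℕ} (hb : 0 < b) (R : Finset β) (φ : β → Fin N × Fin b)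
    (hφ : Set.InjOn φ R) (Γ : Finset (Fin N → Fin b)) (Q : ℕ)
    (hΓ : (b : ℝ) ^ N * Real.exp (-((R.card : ℝ) / (4 * b * Q))) < Γ.card)
    (hQ : 0 < Q) (T : ℕ) :
    ∃ g : ℕ → (Fin N → Fin b), (∀ i, g i ∈ Γ) ∧
      ((R.filter fun v => ∀ i < T, g i (φ v).1 ≠ (φ v).2).card * Q ≤ R.card ∨
       ((R.filter fun v => ∀ i < T, g i (φ v).1 ≠ (φ v).2).card : ℝ) ≤
          R.card * (1 - 1 / (4 * b)) ^ T) := by
  have hb' : (0 : ℝ) < b := by exact_mod_cast hb
  have hQ' : (0 : ℝ) < Q := by exact_mod_cast hQ
  induction T with
  | zero =>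
    have hne : Γ.Nonempty := by
      rw [← Finset.card_pos]
      have : (0 : ℝ) < Γ.card := lt_of_le_of_lt (by positivity) hΓ
      exact_mod_cast this
    obtain ⟨g0, hg0⟩ := hne
    refine ⟨fun _ => g0, fun _ => hg0, Or.inr ?_⟩
    simp only [pow_zero, mul_one]
    exact_mod_cast Finset.card_filter_le _ _
  | succ T ih =>
    obtain ⟨g, hg, hcase⟩ := ih
    set U := R.filter fun v => ∀ i < T, g i (φ v).1 ≠ (φ v).2 with hU
    by_cases hsm : U.card * Q ≤ R.card
    · refine ⟨g, hg, Or.inl ?_⟩
      refine le_trans (Nat.mul_le_mul_right _ (Finset.card_le_card ?_)) hsm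
      intro v hv
      simp only [hU, mem_filter] at hv ⊢
      exact ⟨hv.1, fun i hi => hv.2 i (by omega)⟩
    · have hcase' := hcase.resolve_left hsm
      push Not at hsm
      have hcardE : (U.image φ).card = U.card := by
        refine Finset.card_image_of_injOn (hφ.mono ?_)
        intro v hv
        simp only [hU, mem_coe, mem_filter] at hv
        exact hv.1
      have h1 := few_bad hb (U.image φ)
      rw [hcardE] at h1
      have h2 : (b : ℝ) ^ N * Real.exp (-((U.card : ℝ) / (4 * b))) ≤
          (b : ℝ) ^ N * Real.exp (-((R.card : ℝ) / (4 * b * Q))) := by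
        refine mul_le_mul_of_nonneg_left (Real.exp_le_exp.2 (neg_le_neg ?_)) (by positivity)
        rw [div_le_div_iff₀ (by positivity) (by positivity)]
        have h3 : (R.card : ℝ) ≤ U.card * Q := by exact_mod_cast hsm.le
        nlinarith
      have h3 := lt_of_le_of_lt (h1.trans h2) hΓ
      have h3' := Nat.cast_lt.1 h3
      obtain ⟨g', hg'Γ, hg'⟩ := Finset.exists_mem_notMem_of_card_lt_card h3'
      simp only [mem_filter, mem_univ, true_and, not_le] at hg'
      refine ⟨fun i => if i < T then g i else g', fun i => ?_, Or.inr ?_⟩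
      · dsimp only
        split_ifs
        · exact hg i
        · exact hg'Γ
      · set U' := R.filter fun v => ∀ i < T + 1,
            (if i < T then g i else g') (φ v).1 ≠ (φ v).2 with hU'
        have hsub : U' = U.filter fun v => ¬ g' (φ v).1 = (φ v).2 := by
          ext v
          simp only [hU', hU, mem_filter]
          constructor
          · rintro ⟨h1, h2⟩
            refine ⟨⟨h1, fun i hi => ?_⟩, ?_⟩
            · have := h2 i (by omega)
              rwa [if_pos hi] at this
            · have := h2 T (by omega)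
              rwa [if_neg (lt_irrefl _)] at this
          · rintro ⟨⟨h1, h2⟩, h3⟩
            refine ⟨h1, fun i hi => ?_⟩
            by_cases hi' : i < T
            · rw [if_pos hi']; exact h2 i hi'
            · rw [if_neg hi']; exact h3
        have hcnt : (U.filter fun v => g' (φ v).1 = (φ v).2).card
            = ((U.image φ).filter fun p => g' p.1 = p.2).card := by
          rw [Finset.filter_image]
          refine (Finset.card_image_of_injOn (hφ.mono ?_)).symm
          intro v hv
          simp only [hU, mem_coe, mem_filter] at hv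
          exact hv.1.1
        have hadd := Finset.card_filter_add_card_filter_not (s := U)
          (fun v => g' (φ v).1 = (φ v).2)
        rw [← hsub, hcnt] at hadd
        have h4 : (U.card : ℝ) < 4 * b * ((U.image φ).filter fun p => g' p.1 = p.2).card := by
          exact_mod_cast hg'
        have h5 : (((U.image φ).filter fun p => g' p.1 = p.2).card : ℝ) + U'.card = U.card := by
          exact_mod_cast hadd
        have h6 : (U.card : ℝ) / (4 * b) ≤ ((U.image φ).filter fun p => g' p.1 = p.2).card := by
          rw [div_le_iff₀ (by positivity)]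
          linarith
        have h7 : (U'.card : ℝ) ≤ U.card * (1 - 1 / (4 * b)) := by
          have : (U.card : ℝ) * (1 - 1 / (4 * b)) = U.card - U.card / (4 * b) := by ring
          rw [this]; linarith
        have h8 : (0 : ℝ) ≤ 1 - 1 / (4 * b) := by
          have h9 : (1 : ℝ) ≤ b := by exact_mod_cast hb
          have h10 : (1 : ℝ) / (4 * b) ≤ 1 := by
            rw [div_le_one (by positivity)]; linarith
          linarith
        calc (U'.card : ℝ) ≤ U.card * (1 - 1 / (4 * b)) := h7
          _ ≤ (R.card * (1 - 1 / (4 * b)) ^ T) * (1 - 1 / (4 * b)) :=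
              mul_le_mul_of_nonneg_right hcase' h8
          _ = R.card * (1 - 1 / (4 * b)) ^ (T + 1) := by ring

/-- The min-max lemma. -/
theorem minmax {α β : Type*} [DecidableEq α] [DecidableEq β] (N : Finset α → Finset β)
    (hN : ∀ A B, A ⊆ B → N B ⊆ N A)
    (SS : Finset (Finset α)) (LL : Set (Finset α)) (Fam : ℕ → Finset α → Prop)
    {K e h T : ℕ} (hh : 0 < h) (hKe : e ≤ K)
    (hR : (N ∅).card ≤ 2 ^ (K * h))
    (hFam0 : Fam 0 ∅)
    (hstep : ∀ k G S, ∀ L : ℕ → Finset α, Fam k G → S ∈ SS → (∀ i, L i ∈ LL) →
      Fam (k + 1) (G ∪ S ∪ (range T).biUnion L))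
    (hne : ∀ k ≤ K + 1, ∀ G, Fam k G → (N G).Nonempty)
    (hT : 4 * 2 ^ ((K - e) * h) * h ≤ T)
    (hS : (SS.card : ℝ) < Real.exp (2 ^ (e * h) / (8 * 2 ^ h))) :
    ∃ V : Finset β, V ⊆ N ∅ ∧ V.card ≤ 2 ^ (e * h) ∧
      ∀ S ∈ SS, ∀ L ∈ LL, (N (S ∪ L) ∩ V).Nonempty := by
  by_contra hcon
  push Not at hcon
  have hT0 : 0 < T := lt_of_lt_of_le (by positivity) hT
  have key : ∀ k ≤ K + 1, ∃ G, Fam k G ∧ (N G).card * 2 ^ (k * h) ≤ 2 ^ (K * h) := by
    intro k
    induction k with
    | zero =>
      intro _
      exact ⟨∅, hFam0, by simpa using hR⟩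
    | succ k ih =>
      intro hk
      obtain ⟨G, hG, hGc⟩ := ih (by omega)
      set R := N G with hRdef
      have hRsub : R ⊆ N ∅ := hN _ _ (Finset.empty_subset _)
      by_cases hn : R.card ≤ 2 ^ (e * h)
      · exfalso
        obtain ⟨S, hS1, L, hL1, hem⟩ := hcon R hRsub hn
        have h1 := hstep k G S (fun _ => L) hG hS1 (fun _ => hL1)
        obtain ⟨w, hw⟩ := hne (k + 1) hk _ h1
        have h2 : w ∈ R := hN _ _ (by
          intro x hx
          simp only [mem_union]
          tauto) hw
        have h3 : w ∈ N (S ∪ L) := hN _ _ (by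
          intro x hx
          simp only [mem_union, mem_biUnion, mem_range] at hx ⊢
          rcases hx with hx | hx
          · tauto
          · exact Or.inr ⟨0, hT0, hx⟩) hw
        have h4 : w ∈ N (S ∪ L) ∩ R := mem_inter.2 ⟨h3, h2⟩
        rw [hem] at h4
        simp at h4
      · push Not at hn
        set n := R.card with hndef
        set Nn := 2 ^ (e * h) with hNn
        have hNn0 : 0 < Nn := by positivity
        obtain ⟨b, hbdef⟩ : ∃ b, b = (n + Nn - 1) / Nn := ⟨_, rfl⟩
        have hnb : n ≤ Nn * b := by
          have := Nat.lt_div_mul_add hNn0 (a := n + Nn - 1)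
          rw [← hbdef] at this
          rw [mul_comm]
          omega
        have hb2 : (b - 1) * Nn < n := by
          have h1 := Nat.div_mul_le_self (n + Nn - 1) Nn
          rw [← hbdef] at h1
          have h2 : 1 ≤ b := by
            by_contra hc
            have : b = 0 := by omega
            rw [this] at hnb; omega
          have h3 : (b - 1) * Nn + Nn = b * Nn := by
            rw [← Nat.succ_mul]
            congr 1
            omega
          omega
        have hb1 : 1 < b := by
          by_contra hc
          have : b ≤ 1 := by omega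
          have : Nn * b ≤ Nn * 1 := Nat.mul_le_mul_left _ this
          omega
        have hb0 : 0 < b := by omega
        have hbK : b ≤ 2 ^ ((K - e) * h) := by
          have hn2 : n ≤ 2 ^ (K * h) := by
            refine le_trans ?_ hGc
            exact Nat.le_mul_of_pos_right _ (by positivity)
          have h1 : 2 ^ (K * h) = 2 ^ ((K - e) * h) * Nn := by
            rw [hNn, ← pow_add, ← Nat.add_mul]
            congr 2
            omega
          by_contra hc
          push Not at hc
          have h2 : 2 ^ ((K - e) * h) * Nn ≤ (b - 1) * Nn := Nat.mul_le_mul_right _ (by omega)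
          omega
        -- the embedding
        obtain ⟨φ, hφ⟩ : ∃ φ : β → Fin Nn × Fin b, Set.InjOn φ R := by
          have hc : Fintype.card R ≤ Fintype.card (Fin Nn × Fin b) := by
            simpa using hnb
          obtain ⟨em⟩ := Function.Embedding.nonempty_of_card_le hc
          refine ⟨fun v => if hv : v ∈ R then em ⟨v, hv⟩ else (⟨0, hNn0⟩, ⟨0, hb0⟩), ?_⟩
          intro v hv w hw hvw
          have hv' : v ∈ R := hv
          have hw' : w ∈ R := hw
          simp only [hv', hw', dif_pos] at hvw
          have := em.injective hvw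
          exact congrArg Subtype.val this
        let Vg : (Fin Nn → Fin b) → Finset β := fun g => R.filter fun v => g (φ v).1 = (φ v).2
        have hVg : ∀ g, (Vg g).card ≤ Nn := by
          intro g
          have : (Vg g).card ≤ (univ : Finset (Fin Nn)).card := by
            refine Finset.card_le_card_of_injOn (fun v => (φ v).1) (fun _ _ => mem_univ _) ?_
            intro v hv w hw hvw
            simp only [Vg, coe_filter, Set.mem_ofPred_eq] at hv hw
            refine hφ hv.1 hw.1 (Prod.ext hvw ?_)
            rw [← hv.2, ← hw.2]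
            exact congrArg g hvw
          simpa using this
        have hbad : ∀ g, ∃ S ∈ SS, ∃ L ∈ LL, N (S ∪ L) ∩ Vg g = ∅ := fun g =>
          hcon (Vg g) ((Finset.filter_subset _ _).trans hRsub) (hVg g)
        choose Sg hSg Lg hLg hem using hbad
        -- pigeonhole
        have hQ : 0 < 2 ^ h := by positivity
        obtain ⟨S, hSS, hfib⟩ : ∃ S ∈ SS, (b : ℝ) ^ Nn * Real.exp (-((R.card : ℝ) / (4 * b * (2 ^ h : ℕ))))
            < (univ.filter fun g => Sg g = S).card := by
          by_contra hc
          push Not at hc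
          have h1 : (univ : Finset (Fin Nn → Fin b)).card = ∑ S ∈ SS, (univ.filter fun g => Sg g = S).card :=
            Finset.card_eq_sum_card_fiberwise (fun g _ => hSg g)
          have h2 : ((univ : Finset (Fin Nn → Fin b)).card : ℝ) ≤
              SS.card * ((b : ℝ) ^ Nn * Real.exp (-((R.card : ℝ) / (4 * b * (2 ^ h : ℕ))))) := by
            rw [h1, Nat.cast_sum]
            refine (Finset.sum_le_sum fun S hS => hc S hS).trans ?_
            simp
          have h3 : ((univ : Finset (Fin Nn → Fin b)).card : ℝ) = (b : ℝ) ^ Nn := by simp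
          rw [h3] at h2
          have hbN : (0 : ℝ) < (b : ℝ) ^ Nn := by
            have : (0 : ℝ) < b := by exact_mod_cast hb0
            positivity
          have h4 : (1 : ℝ) ≤ SS.card * Real.exp (-((R.card : ℝ) / (4 * b * (2 ^ h : ℕ)))) := by
            by_contra hc2
            push Not at hc2
            have := mul_lt_mul_of_pos_left hc2 hbN
            rw [mul_one] at this
            have h5 : (b : ℝ) ^ Nn * (SS.card * Real.exp (-((R.card : ℝ) / (4 * b * (2 ^ h : ℕ))))) =
              SS.card * ((b : ℝ) ^ Nn * Real.exp (-((R.card : ℝ) / (4 * b * (2 ^ h : ℕ))))) := by ring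
            rw [h5] at this
            linarith
          have h5 : (2 : ℝ) ^ (e * h) / (8 * 2 ^ h) ≤ (R.card : ℝ) / (4 * b * (2 ^ h : ℕ)) := by
            have hb0' : (0 : ℝ) < b := by exact_mod_cast hb0
            rw [div_le_div_iff₀ (by positivity) (by positivity)]
            have h6 : b * Nn ≤ 2 * n := by
              have : (b - 1) * Nn + Nn = b * Nn := by
                rw [← Nat.succ_mul]
                congr 1
                omega
              omega
            have h7 : (b : ℝ) * 2 ^ (e * h) ≤ 2 * (R.card : ℝ) := by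
              have h8 : ((b * Nn : ℕ) : ℝ) ≤ ((2 * n : ℕ) : ℝ) := by exact_mod_cast h6
              rw [hNn, hndef] at h8
              push_cast at h8
              exact h8
            have h8 : (0 : ℝ) < 2 ^ h := by positivity
            push_cast
            calc (2 : ℝ) ^ (e * h) * (4 * b * 2 ^ h) = (b * 2 ^ (e * h)) * (4 * 2 ^ h) := by ring
              _ ≤ (2 * (R.card : ℝ)) * (4 * 2 ^ h) := mul_le_mul_of_nonneg_right h7 (by positivity)
              _ = (R.card : ℝ) * (8 * 2 ^ h) := by ring
          have h6 : (SS.card : ℝ) * Real.exp (-((R.card : ℝ) / (4 * b * (2 ^ h : ℕ)))) < 1 := by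
            have h7 : (SS.card : ℝ) < Real.exp ((R.card : ℝ) / (4 * b * (2 ^ h : ℕ))) :=
              lt_of_lt_of_le hS (Real.exp_le_exp.2 h5)
            have h8 := mul_lt_mul_of_pos_right h7
              (Real.exp_pos (-((R.card : ℝ) / (4 * b * (2 ^ h : ℕ)))))
            rw [← Real.exp_add] at h8
            simpa using h8
          linarith
        obtain ⟨g, hg, hgc⟩ := greedy hb0 R φ hφ (univ.filter fun g => Sg g = S) (2 ^ h) hfib hQ T
        refine ⟨G ∪ S ∪ (range T).biUnion fun i => Lg (g i), hstep k G S _ hG hSS
          (fun i => hLg _), ?_⟩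
        have hsubU : N (G ∪ S ∪ (range T).biUnion fun i => Lg (g i)) ⊆
            R.filter fun v => ∀ i < T, g i (φ v).1 ≠ (φ v).2 := by
          intro v hv
          have h2 : v ∈ R := hN _ _ (by
            intro x hx
            simp only [mem_union]
            tauto) hv
          rw [mem_filter]
          refine ⟨h2, fun i hi heq => ?_⟩
          have h3 : v ∈ N (Sg (g i) ∪ Lg (g i)) := hN _ _ (by
            have h4 : Sg (g i) = S := (mem_filter.1 (hg i)).2
            rw [h4]
            intro x hx
            simp only [mem_union, mem_biUnion, mem_range] at hx ⊢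
            rcases hx with hx | hx
            · tauto
            · exact Or.inr ⟨i, hi, hx⟩) hv
          have h4 : v ∈ N (Sg (g i) ∪ Lg (g i)) ∩ Vg (g i) :=
            mem_inter.2 ⟨h3, mem_filter.2 ⟨h2, heq⟩⟩
          rw [hem] at h4
          simp at h4
        have hUc : (R.filter fun v => ∀ i < T, g i (φ v).1 ≠ (φ v).2).card * 2 ^ h ≤ n := by
          rcases hgc with hgc | hgc
          · exact hgc
          · have hb0' : (0 : ℝ) < b := by exact_mod_cast hb0
            have h1 : (1 - 1 / (4 * (b : ℝ))) ^ T ≤ Real.exp (-(h : ℝ)) := by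
              have h2 : 1 - 1 / (4 * (b : ℝ)) ≤ Real.exp (-(1 / (4 * (b : ℝ)))) := by
                have := Real.add_one_le_exp (-(1 / (4 * (b : ℝ))))
                linarith
              have h3 : (0 : ℝ) ≤ 1 - 1 / (4 * b) := by
                have h9 : (1 : ℝ) ≤ b := by exact_mod_cast hb0
                have h10 : (1 : ℝ) / (4 * b) ≤ 1 := by
                  rw [div_le_one (by positivity)]; linarith
                linarith
              refine (pow_le_pow_left₀ h3 h2 T).trans ?_
              rw [← Real.exp_nat_mul]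
              refine Real.exp_le_exp.2 ?_
              have h4 : 4 * b * h ≤ T :=
                le_trans (Nat.mul_le_mul_right _ (Nat.mul_le_mul_left _ hbK)) hT
              have h5 : (4 * b * h : ℝ) ≤ T := by exact_mod_cast h4
              rw [mul_neg, neg_le_neg_iff, mul_one_div, le_div_iff₀ (by positivity)]
              linarith
            have h2 : Real.exp (-(h : ℝ)) * 2 ^ h ≤ 1 := by
              have h3 : (2 : ℝ) ≤ Real.exp 1 := by
                have := Real.add_one_le_exp (1 : ℝ)
                linarith
              have h4 : (2 : ℝ) ^ h ≤ Real.exp h := by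
                have := pow_le_pow_left₀ (by norm_num) h3 h
                rwa [← Real.exp_nat_mul, mul_one] at this
              have h5 := mul_le_mul_of_nonneg_left h4 (Real.exp_pos (-(h : ℝ))).le
              rw [← Real.exp_add] at h5
              simpa using h5
            have h3 : ((R.filter fun v => ∀ i < T, g i (φ v).1 ≠ (φ v).2).card : ℝ) * 2 ^ h ≤ n := by
              calc ((R.filter fun v => ∀ i < T, g i (φ v).1 ≠ (φ v).2).card : ℝ) * 2 ^ h
                  ≤ (R.card * (1 - 1 / (4 * b)) ^ T) * 2 ^ h :=
                    mul_le_mul_of_nonneg_right hgc (by positivity)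
                _ ≤ (R.card * Real.exp (-(h : ℝ))) * 2 ^ h := by
                    refine mul_le_mul_of_nonneg_right (mul_le_mul_of_nonneg_left h1 ?_) (by positivity)
                    positivity
                _ = R.card * (Real.exp (-(h : ℝ)) * 2 ^ h) := by ring
                _ ≤ R.card * 1 := mul_le_mul_of_nonneg_left h2 (by positivity)
                _ = n := by rw [mul_one]
            exact_mod_cast h3
        have h1 : (N (G ∪ S ∪ (range T).biUnion fun i => Lg (g i))).card * 2 ^ h ≤ n :=
          le_trans (Nat.mul_le_mul_right _ (Finset.card_le_card hsubU)) hUc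
        calc (N (G ∪ S ∪ (range T).biUnion fun i => Lg (g i))).card * 2 ^ ((k + 1) * h)
            = ((N (G ∪ S ∪ (range T).biUnion fun i => Lg (g i))).card * 2 ^ h) * 2 ^ (k * h) := by
              rw [Nat.add_mul, one_mul, pow_add]; ring
          _ ≤ n * 2 ^ (k * h) := Nat.mul_le_mul_right _ h1
          _ ≤ 2 ^ (K * h) := hGc
  obtain ⟨G, hG, hGc⟩ := key (K + 1) le_rfl
  have h1 := Finset.card_pos.2 (hne (K + 1) le_rfl G hG)
  have h2 : 2 ^ (K * h) < 2 ^ ((K + 1) * h) := by
    refine Nat.pow_lt_pow_right (by norm_num) ?_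
    rw [Nat.add_mul]; omega
  have h3 : 1 * 2 ^ ((K + 1) * h) ≤ (N G).card * 2 ^ ((K + 1) * h) := Nat.mul_le_mul_right _ h1
  omega

end Pool.Agent.W968.SCx
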