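import Mathlib

set_option autoImplicit false

namespace Pool.Agent.W968.SCx

open Finset Classical

/-- the weight which the forbidden string `g` gives to the string `z` -/
noncomputable def phi (t : ℝ) (z g : List Bool) : ℝ :=
  ∑ j ∈ range (g.length + 1), if g.take j <:+ z then t ^ (g.length - j) else 0

theorem phi_nonneg {t : ℝ} (ht : 0 ≤ t) (z g : List Bool) : 0 ≤ phi t z g := by
  refine Finset.sum_nonneg fun j _ => ?_
  split_ifs
  · exact pow_nonneg ht _
  · exact le_rfl

theorem one_le_phi {t : ℝ} (ht : 0 ≤ t) {z g : List Bool} (h : g <:+ z) : 1 ≤ phi t z g := by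
  have h1 : (if g.take g.length <:+ z then t ^ (g.length - g.length) else 0) = (1 : ℝ) := by
    rw [List.take_length, if_pos h]; simp
  have h2 := Finset.single_le_sum (f := fun j => if g.take j <:+ z then t ^ (g.length - j) else 0)
    (s := range (g.length + 1)) (fun j _ => by
      split_ifs
      · exact pow_nonneg ht _
      · exact le_rfl) (mem_range.2 (Nat.lt_succ_self g.length))
  unfold phi
  rw [h1] at h2
  exact h2

theorem snoc_suffix {l z : List Bool} {a b : Bool} :
    (l ++ [a]) <:+ (z ++ [b]) ↔ a = b ∧ l <:+ z := by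
  rw [← List.reverse_prefix, List.reverse_append, List.reverse_append]
  simp only [List.reverse_cons, List.reverse_nil, List.nil_append, List.singleton_append]
  rw [List.cons_prefix_cons, List.reverse_prefix]

theorem phi_step {t : ℝ} (ht : 0 < t) (z g : List Bool) :
    phi t (z ++ [false]) g + phi t (z ++ [true]) g ≤ phi t z g / t + 2 * t ^ g.length := by
  have hterm : ∀ b : Bool, phi t (z ++ [b]) g = t ^ g.length + ∑ j ∈ range g.length,
      if g.take (j + 1) <:+ z ++ [b] then t ^ (g.length - (j + 1)) else 0 := by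
    intro b
    unfold phi
    rw [Finset.sum_range_succ', add_comm]
    simp
  have hstep : ∀ j ∈ range g.length,
      (if g.take (j + 1) <:+ z ++ [false] then t ^ (g.length - (j + 1)) else 0) +
      (if g.take (j + 1) <:+ z ++ [true] then t ^ (g.length - (j + 1)) else 0) =
      (if g.take j <:+ z then t ^ (g.length - j) else 0) / t := by
    intro j hj
    have hj' := mem_range.1 hj
    have h1 : g.take (j + 1) = g.take j ++ [g[j]] := by
      rw [List.take_succ_eq_append_getElem hj']
    have h2 : t ^ (g.length - j) = t ^ (g.length - (j + 1)) * t := by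
      rw [← pow_succ]
      congr 1
      omega
    simp only [h1, snoc_suffix, h2]
    by_cases hs : g.take j <:+ z
    · cases g[j] <;> simp [hs, ht.ne']
    · simp [hs]
  have h0 : (0 : ℝ) ≤ (if g.take g.length <:+ z then t ^ (g.length - g.length) else 0) := by
    split_ifs
    · exact pow_nonneg ht.le _
    · exact le_rfl
  have hphi : phi t z g = (∑ j ∈ range g.length, if g.take j <:+ z then t ^ (g.length - j) else 0) +
      (if g.take g.length <:+ z then t ^ (g.length - g.length) else 0) := by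
    unfold phi
    rw [Finset.sum_range_succ]
  rw [hterm, hterm, hphi, add_div, Finset.sum_div, ← Finset.sum_congr rfl hstep,
    Finset.sum_add_distrib]
  have h3 := div_nonneg h0 ht.le
  linarith

theorem phi_le {t : ℝ} (ht : 0 < t) (ht1 : t ≤ 1) (z g : List Bool) :
    phi t z g ≤ ((z.length + 1 : ℕ) : ℝ) * (1 / t) ^ z.length * t ^ g.length := by
  have h1 : phi t z g ≤ ∑ j ∈ (range (g.length + 1)).filter (fun j => j ≤ z.length),
      (1 / t) ^ z.length * t ^ g.length := by
    unfold phi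
    rw [Finset.sum_filter]
    refine Finset.sum_le_sum fun j hj => ?_
    have hj' := mem_range.1 hj
    by_cases hs : g.take j <:+ z
    · have h2 : j ≤ z.length := by
        have := hs.length_le
        rw [List.length_take] at this
        omega
      rw [if_pos hs, if_pos h2]
      have h3 : t ^ (g.length - j) = (1 / t) ^ j * t ^ g.length := by
        have h4 : t ^ g.length = t ^ (g.length - j) * t ^ j := by
          rw [← pow_add]
          congr 1
          omega
        rw [h4, one_div, inv_pow]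
        have : t ^ j ≠ 0 := (pow_pos ht j).ne'
        field_simp
      rw [h3]
      refine mul_le_mul_of_nonneg_right ?_ (pow_nonneg ht.le _)
      refine pow_le_pow_right₀ ?_ h2
      rw [le_div_iff₀ ht, one_mul]
      exact ht1
    · rw [if_neg hs]
      split_ifs
      · positivity
      · exact le_rfl
  refine h1.trans ?_
  rw [Finset.sum_const, nsmul_eq_mul, ← mul_assoc]
  refine mul_le_mul_of_nonneg_right (mul_le_mul_of_nonneg_right ?_ (by positivity)) (by positivity)
  have h2 : ((range (g.length + 1)).filter (fun j => j ≤ z.length)).card ≤ z.length + 1 := by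
    have h3 : ((range (g.length + 1)).filter (fun j => j ≤ z.length)) ⊆ range (z.length + 1) := by
      intro j hj
      simp only [mem_filter, mem_range] at hj ⊢
      omega
    simpa using Finset.card_le_card h3
  exact_mod_cast h2

/-- the potential of `F` at `z` is at most `θ` -/
def PLe (t : ℝ) (F : Set (List Bool)) (z : List Bool) (θ : ℝ) : Prop :=
  ∀ A : Finset (List Bool), (∀ g ∈ A, g ∈ F) → ∑ g ∈ A, phi t z g ≤ θ

/-- the total weight of `F` is at most `w` -/
def WLe (t : ℝ) (F : Set (List Bool)) (w : ℝ) : Prop :=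
  ∀ A : Finset (List Bool), (∀ g ∈ A, g ∈ F) → ∑ g ∈ A, t ^ g.length ≤ w

theorem PLe.mono {t : ℝ} {F G : Set (List Bool)} {z : List Bool} {θ θ' : ℝ} (h : PLe t F z θ)
    (hG : G ⊆ F) (hθ : θ ≤ θ') : PLe t G z θ' :=
  fun A hA => (h A fun g hg => hG (hA g hg)).trans hθ

theorem WLe.mono {t : ℝ} {F G : Set (List Bool)} {w w' : ℝ} (h : WLe t F w)
    (hG : G ⊆ F) (hw : w ≤ w') : WLe t G w' :=
  fun A hA => (h A fun g hg => hG (hA g hg)).trans hw

theorem PLe.union {t : ℝ} {F G : Set (List Bool)} {z : List Bool} {θ θ' : ℝ} (h : PLe t F z θ)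
    (h' : PLe t G z θ') : PLe t (F ∪ G) z (θ + θ') := by
  intro A hA
  rw [← Finset.sum_filter_add_sum_filter_not A (fun g => g ∈ F)]
  refine add_le_add (h _ fun g hg => (mem_filter.1 hg).2) (h' _ fun g hg => ?_)
  have := mem_filter.1 hg
  exact (hA g this.1).resolve_left this.2

theorem WLe.union {t : ℝ} {F G : Set (List Bool)} {w w' : ℝ} (h : WLe t F w)
    (h' : WLe t G w') : WLe t (F ∪ G) (w + w') := by
  intro A hA
  rw [← Finset.sum_filter_add_sum_filter_not A (fun g => g ∈ F)]
  refine add_le_add (h _ fun g hg => (mem_filter.1 hg).2) (h' _ fun g hg => ?_)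
  have := mem_filter.1 hg
  exact (hA g this.1).resolve_left this.2

theorem PLe.not_mem {t : ℝ} (ht : 0 ≤ t) {F : Set (List Bool)} {z : List Bool} {θ : ℝ}
    (h : PLe t F z θ) (hθ : θ < 1) {g : List Bool} (hg : g <:+ z) : g ∉ F := by
  intro hgF
  have h1 := h {g} (by simpa using hgF)
  rw [Finset.sum_singleton] at h1
  have h2 := one_le_phi ht hg
  linarith

/-- the factor bounding the potential by the weight -/
noncomputable def MM (t : ℝ) (n : ℕ) : ℝ := ((n + 1 : ℕ) : ℝ) * (1 / t) ^ n

theorem MM_nonneg {t : ℝ} (ht : 0 < t) (n : ℕ) : 0 ≤ MM t n := by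
  unfold MM; positivity

theorem MM_mono {t : ℝ} (ht : 0 < t) (ht1 : t ≤ 1) {m n : ℕ} (h : m ≤ n) : MM t m ≤ MM t n := by
  unfold MM
  refine mul_le_mul (by exact_mod_cast Nat.succ_le_succ h) (pow_le_pow_right₀ ?_ h)
    (by positivity) (by positivity)
  rw [le_div_iff₀ ht, one_mul]
  exact ht1

theorem WLe.toP {t : ℝ} (ht : 0 < t) (ht1 : t ≤ 1) {F : Set (List Bool)} {w : ℝ} (h : WLe t F w)
    (z : List Bool) : PLe t F z (MM t z.length * w) := by
  intro A hA
  have h1 : ∑ g ∈ A, phi t z g ≤ ∑ g ∈ A, MM t z.length * t ^ g.length :=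
    Finset.sum_le_sum fun g _ => phi_le ht ht1 z g
  refine h1.trans ?_
  rw [← Finset.mul_sum]
  exact mul_le_mul_of_nonneg_left (h A hA) (MM_nonneg ht _)

/-- one of the two extensions has small potential -/
theorem step_ext {t : ℝ} (ht : 0 < t) {F : Set (List Bool)} {z : List Bool} {θ w : ℝ}
    (hP : PLe t F z θ) (hW : WLe t F w) : ∃ b : Bool, PLe t F (z ++ [b]) (1 / (2 * t) * θ + w) := by
  by_contra hc
  push Not at hc
  have h0 := hc false
  have h1 := hc true
  unfold PLe at h0 h1
  push Not at h0 h1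
  obtain ⟨A, hA, hA'⟩ := h0
  obtain ⟨B, hB, hB'⟩ := h1
  have hAB : ∀ g ∈ A ∪ B, g ∈ F := by
    intro g hg
    rcases mem_union.1 hg with hg | hg
    · exact hA g hg
    · exact hB g hg
  have h2 : ∑ g ∈ A, phi t (z ++ [false]) g ≤ ∑ g ∈ A ∪ B, phi t (z ++ [false]) g :=
    Finset.sum_le_sum_of_subset_of_nonneg subset_union_left fun g _ _ => phi_nonneg ht.le _ _
  have h3 : ∑ g ∈ B, phi t (z ++ [true]) g ≤ ∑ g ∈ A ∪ B, phi t (z ++ [true]) g :=
    Finset.sum_le_sum_of_subset_of_nonneg subset_union_right fun g _ _ => phi_nonneg ht.le _ _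
  have h4 : ∑ g ∈ A ∪ B, phi t (z ++ [false]) g + ∑ g ∈ A ∪ B, phi t (z ++ [true]) g ≤
      (∑ g ∈ A ∪ B, phi t z g) / t + 2 * ∑ g ∈ A ∪ B, t ^ g.length := by
    rw [← Finset.sum_add_distrib, Finset.sum_div, Finset.mul_sum, ← Finset.sum_add_distrib]
    exact Finset.sum_le_sum fun g _ => phi_step ht z g
  have h5 : (∑ g ∈ A ∪ B, phi t z g) / t ≤ θ / t := div_le_div_of_nonneg_right (hP _ hAB) ht.le
  have h6 := hW _ hAB
  have h7 : 1 / (2 * t) * θ = (θ / t) / 2 := by
    field_simp
  rw [h7] at hA' hB'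
  linarith

theorem relax {t : ℝ} (ht : 1 / 2 < t) {F : Set (List Bool)} {z : List Bool} {θ w : ℝ}
    (hw : w ≤ (1 - 1 / (2 * t)) / 8) (hθ : 1 / 8 ≤ θ)
    (hP : PLe t F z θ) (hW : WLe t F w) (i : ℕ) :
    ∃ y : List Bool, y.length = i ∧
      PLe t F (z ++ y) ((1 / (2 * t)) ^ i * θ + (1 - (1 / (2 * t)) ^ i) / 8) ∧
      ∀ k ≤ i, PLe t F (z ++ y.take k) θ := by
  have ht0 : 0 < t := by linarith
  have hρ0 : (0 : ℝ) ≤ 1 / (2 * t) := by positivity
  have hρ1 : 1 / (2 * t) < 1 := by
    rw [div_lt_one (by linarith)]; linarith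
  induction i with
  | zero =>
    refine ⟨[], rfl, ?_, ?_⟩
    · simpa using hP
    · intro k hk
      simpa using hP
  | succ i ih =>
    obtain ⟨y, hy1, hy2, hy3⟩ := ih
    obtain ⟨b, hb⟩ := step_ext ht0 hy2 hW
    have hρi0 : (0 : ℝ) ≤ (1 / (2 * t)) ^ (i + 1) := pow_nonneg hρ0 _
    have hρi1 : (1 / (2 * t)) ^ (i + 1) ≤ 1 := pow_le_one₀ hρ0 hρ1.le
    have hb' : PLe t F (z ++ (y ++ [b])) ((1 / (2 * t)) ^ (i + 1) * θ +
        (1 - (1 / (2 * t)) ^ (i + 1)) / 8) := by
      rw [← List.append_assoc]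
      refine hb.mono subset_rfl ?_
      have h1 : 1 / (2 * t) * ((1 / (2 * t)) ^ i * θ + (1 - (1 / (2 * t)) ^ i) / 8) + w ≤
        1 / (2 * t) * ((1 / (2 * t)) ^ i * θ + (1 - (1 / (2 * t)) ^ i) / 8) +
          (1 - 1 / (2 * t)) / 8 := by linarith
      refine h1.trans (le_of_eq ?_)
      rw [pow_succ]
      ring
    refine ⟨y ++ [b], by simp [hy1], hb', ?_⟩
    intro k hk
    rcases Nat.lt_or_ge i k with h | h
    · have : k = i + 1 := by omega
      subst this
      rw [List.take_of_length_le (by simp [hy1])]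
      refine hb'.mono subset_rfl ?_
      nlinarith
    · rw [List.take_append_of_le_length (by omega)]
      exact hy3 k h

/-- the number of strings of length `r` in `A` -/
noncomputable def cnt (A : Finset (List Bool)) (r : ℕ) : ℕ := (A.filter fun g => g.length = r).card

theorem cnt_mono {A B : Finset (List Bool)} (h : A ⊆ B) (r : ℕ) : cnt A r ≤ cnt B r :=
  Finset.card_le_card (Finset.filter_subset_filter _ h)

theorem cnt_union_le (A B : Finset (List Bool)) (r : ℕ) : cnt (A ∪ B) r ≤ cnt A r + cnt B r := by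
  unfold cnt
  rw [Finset.filter_union]
  exact Finset.card_union_le _ _

theorem cnt_biUnion_le (T : ℕ) (L : ℕ → Finset (List Bool)) (r : ℕ) :
    cnt ((range T).biUnion L) r ≤ ∑ i ∈ range T, cnt (L i) r := by
  unfold cnt
  rw [Finset.filter_biUnion]
  exact Finset.card_biUnion_le

theorem cnt_eq_zero {A : Finset (List Bool)} {r : ℕ} (h : ∀ g ∈ A, g.length ≠ r) : cnt A r = 0 := by
  unfold cnt
  rw [Finset.card_eq_zero, Finset.filter_eq_empty_iff]
  exact h

theorem geom_sum_le {ρ : ℝ} (h0 : 0 ≤ ρ) (h1 : ρ < 1) (S : Finset ℕ) (lo : ℕ)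
    (hS : ∀ r ∈ S, lo ≤ r) : ∑ r ∈ S, ρ ^ r ≤ ρ ^ lo / (1 - ρ) := by
  have h2 : ∑ r ∈ S, ρ ^ r = ∑ j ∈ S.image (fun r => r - lo), ρ ^ lo * ρ ^ j := by
    rw [Finset.sum_image]
    · refine Finset.sum_congr rfl fun r hr => ?_
      rw [← pow_add]
      congr 1
      have := hS r hr
      omega
    · intro a ha b hb hab
      have := hS a ha
      have := hS b hb
      simp only at hab
      omega
  rw [h2, ← Finset.mul_sum, div_eq_mul_inv]
  refine mul_le_mul_of_nonneg_left ?_ (pow_nonneg h0 _)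
  rw [← tsum_geometric_of_lt_one h0 h1]
  exact (summable_geometric_of_lt_one h0 h1).sum_le_tsum _ fun _ _ => pow_nonneg h0 _

theorem sum_len_eq (A : Finset (List Bool)) (f : ℕ → ℝ) :
    ∑ g ∈ A, f g.length = ∑ r ∈ A.image List.length, (cnt A r : ℝ) * f r := by
  rw [← Finset.sum_fiberwise_of_maps_to (s := A) (t := A.image List.length)
    (g := fun g : List Bool => g.length) (fun g hg => mem_image_of_mem _ hg)]
  refine Finset.sum_congr rfl fun r _ => ?_
  unfold cnt
  rw [Finset.sum_congr rfl (g := fun _ => f r) (fun g hg => by rw [(mem_filter.1 hg).2]),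
    Finset.sum_const, nsmul_eq_mul]

theorem W_geom {t ρ c : ℝ} {lo : ℕ} (h0 : 0 ≤ ρ) (h1 : ρ < 1) (hc : 0 ≤ c)
    (A : Finset (List Bool)) (hlo : ∀ g ∈ A, lo ≤ g.length)
    (hB : ∀ r, lo ≤ r → (cnt A r : ℝ) * t ^ r ≤ c * ρ ^ r) :
    ∑ g ∈ A, t ^ g.length ≤ c * (ρ ^ lo / (1 - ρ)) := by
  rw [sum_len_eq A (fun r => t ^ r)]
  have h2 : ∀ r ∈ A.image List.length, lo ≤ r := by
    intro r hr
    obtain ⟨g, hg, rfl⟩ := mem_image.1 hr
    exact hlo g hg
  refine (Finset.sum_le_sum fun r hr => hB r (h2 r hr)).trans ?_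
  rw [← Finset.mul_sum]
  exact mul_le_mul_of_nonneg_left (geom_sum_le h0 h1 _ lo h2) hc

end Pool.Agent.W968.SCx
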