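import Mathlib
import Pool.Agent.Helper227.SOne
import Pool.Agent.H561R3.Prim
import Pool.Agent.W968.SCx.Pot

set_option autoImplicit false

namespace Pool.Agent.W968.SCx

open Encodable Pool.Agent.Helper227 Pool.Agent.H561R3

/-- the constants of a search -/
structure Par where
  p : ℕ
  q : ℕ
  p1 : ℕ
  q1 : ℕ
  lo : ℕ
  C1 : ℕ
  tn : ℕ
  td : ℕ
  K : ℕ
  e : ℕ
  D : List (List Bool)
  x : List Bool

variable (P : Par)

def num (u : ℕ) (z g : List Bool) : ℕ :=
  ((List.range (g.length + 1)).map fun j => if z.drop (z.length - j) = g.take j then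
    P.p ^ (g.length - j) * P.q ^ (u - (g.length - j)) else 0).sum

def potN (u : ℕ) (L z : List Bool) : ℕ :=
  ((upTo u).map fun g => if inL L g then num P u z g else 0).sum

def cntN (r : ℕ) (L : List Bool) : ℕ :=
  ((strs r).map fun g => if inL L g then 1 else 0).sum

def Ok (u : ℕ) (L : List Bool) : Prop :=
  (∀ g ∈ upTo u, g.length < P.lo → (inL L g ↔ g ∈ P.D)) ∧
  ∀ r < u + 1, P.lo ≤ r → cntN r L * P.p1 ^ r ≤ P.q1 ^ r

def Safe (u : ℕ) (L z : List Bool) : Prop :=
  z.take P.x.length = P.x ∧ ∀ n < z.length + 1, P.x.length < n →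
    P.td * potN P u L (z.take n) ≤ P.tn * P.q ^ u

def WIT (G : List Bool × ℕ × ℕ → Prop) (a : ℕ × List (List Bool)) : Prop :=
  ((∀ w ∈ a.2, w.length = P.K * a.1) ∧ a.2.length ≤ 2 ^ (P.e * a.1)) ∧
  ∃ v : ℕ, ∀ L ∈ strs (KK (P.C1 * (v + 1))), ¬ Ok P (P.C1 * (v + 1)) L ∨
    ∃ z : List Bool, (z.length = v ∧ Safe P (P.C1 * (v + 1)) L z) ∧
      ∃ w : List Bool, w ∈ a.2 ∧ ∀ i < P.K * a.1, G (z, i, (w.getD i false).toNat)

theorem pr_num : Primrec fun a : ℕ × List Bool × List Bool => num P a.1 a.2.1 a.2.2 := by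
  unfold num
  refine pr_sum (f := fun a : ℕ × List Bool × List Bool => List.range (a.2.2.length + 1))
    (g := fun a j => if a.2.1.drop (a.2.1.length - j) = a.2.2.take j then
      P.p ^ (a.2.2.length - j) * P.q ^ (a.1 - (a.2.2.length - j)) else 0) ?_ ?_
  · exact Primrec.list_range.comp (Primrec.succ.comp (Primrec.list_length.comp
      (Primrec.snd.comp Primrec.snd)))
  · have ez : Primrec fun b : (ℕ × List Bool × List Bool) × ℕ => b.1.2.1 :=
      Primrec.fst.comp (Primrec.snd.comp Primrec.fst)
    have eg : Primrec fun b : (ℕ × List Bool × List Bool) × ℕ => b.1.2.2 :=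
      Primrec.snd.comp (Primrec.snd.comp Primrec.fst)
    have eu : Primrec fun b : (ℕ × List Bool × List Bool) × ℕ => b.1.1 :=
      Primrec.fst.comp Primrec.fst
    have ej : Primrec fun b : (ℕ × List Bool × List Bool) × ℕ => b.2 := Primrec.snd
    have e1 : Primrec fun b : (ℕ × List Bool × List Bool) × ℕ => b.1.2.2.length - b.2 :=
      Primrec.nat_sub.comp (Primrec.list_length.comp eg) ej
    have e2 : Primrec fun b : (ℕ × List Bool × List Bool) × ℕ => b.1.2.1.length - b.2 :=
      Primrec.nat_sub.comp (Primrec.list_length.comp ez) ej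
    refine Primrec.ite ?_ ?_ (Primrec.const 0)
    · exact Primrec.eq.comp (Primrec.list_drop.comp e2 ez) (Primrec.list_take.comp ej eg)
    · exact Primrec.nat_mul.comp (pr_pow.comp (Primrec.const P.p) e1)
        (pr_pow.comp (Primrec.const P.q) (Primrec.nat_sub.comp eu e1))

theorem pr_potN : Primrec fun a : ℕ × List Bool × List Bool => potN P a.1 a.2.1 a.2.2 := by
  unfold potN
  refine pr_sum (f := fun a : ℕ × List Bool × List Bool => upTo a.1)
    (g := fun a g => if inL a.2.1 g then num P a.1 a.2.2 g else 0) ?_ ?_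
  · exact pr_upTo.comp Primrec.fst
  · have eL : Primrec fun b : (ℕ × List Bool × List Bool) × List Bool => b.1.2.1 :=
      Primrec.fst.comp (Primrec.snd.comp Primrec.fst)
    have ez : Primrec fun b : (ℕ × List Bool × List Bool) × List Bool => b.1.2.2 :=
      Primrec.snd.comp (Primrec.snd.comp Primrec.fst)
    have eu : Primrec fun b : (ℕ × List Bool × List Bool) × List Bool => b.1.1 :=
      Primrec.fst.comp Primrec.fst
    refine Primrec.ite (pr_inL eL Primrec.snd) ?_ (Primrec.const 0)
    exact (pr_num P).comp (eu.pair (ez.pair Primrec.snd))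

theorem pr_cntN : Primrec fun a : ℕ × List Bool => cntN a.1 a.2 := by
  unfold cntN
  refine pr_sum (f := fun a : ℕ × List Bool => strs a.1)
    (g := fun a g => if inL a.2 g then 1 else 0) (pr_strs.comp Primrec.fst) ?_
  exact Primrec.ite (pr_inL (Primrec.snd.comp Primrec.fst) Primrec.snd) (Primrec.const 1)
    (Primrec.const 0)

theorem pr_memD (D : List (List Bool)) : PrimrecPred fun g : List Bool => g ∈ D :=
  (PP.ex_mem (f := fun _ : List Bool => D) (p := fun g d => d = g)
    (Primrec.eq.comp Primrec.snd Primrec.fst) (Primrec.const D)).of_eq (by simp)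

theorem pr_memV {α : Type*} [Primcodable α] {f : α → List (List Bool)} {g : α → List Bool}
    (hf : Primrec f) (hg : Primrec g) : PrimrecPred fun a => g a ∈ f a :=
  (PP.ex_mem (f := f) (p := fun a d => d = g a)
    (Primrec.eq.comp Primrec.snd (hg.comp Primrec.fst)) hf).of_eq (by simp)

theorem pp_imp {α : Type*} [Primcodable α] {p r : α → Prop} (hp : PrimrecPred p)
    (hr : PrimrecPred r) : PrimrecPred fun a => p a → r a :=
  (PrimrecPred.or (PrimrecPred.not hp) hr).of_eq fun a => by
    by_cases h : p a <;> simp [h]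

theorem pp_iff {α : Type*} [Primcodable α] {p r : α → Prop} (hp : PrimrecPred p)
    (hr : PrimrecPred r) : PrimrecPred fun a => (p a ↔ r a) :=
  (PrimrecPred.and (pp_imp hp hr) (pp_imp hr hp)).of_eq fun a => by
    by_cases h : p a <;> by_cases h' : r a <;> simp [h, h']

theorem pr_Ok : PrimrecPred fun a : ℕ × List Bool => Ok P a.1 a.2 := by
  unfold Ok
  refine PrimrecPred.and ?_ ?_
  · refine PP.all_mem (f := fun a : ℕ × List Bool => upTo a.1)
      (p := fun a g => g.length < P.lo → (inL a.2 g ↔ g ∈ P.D)) ?_ (pr_upTo.comp Primrec.fst)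
    refine pp_imp ?_ (pp_iff ?_ ?_)
    · exact Primrec.nat_lt.comp (Primrec.list_length.comp Primrec.snd) (Primrec.const P.lo)
    · exact pr_inL (Primrec.snd.comp Primrec.fst) Primrec.snd
    · exact (pr_memD P.D).comp Primrec.snd
  · refine PP.all_lt (f := fun a : ℕ × List Bool => a.1 + 1)
      (p := fun a r => P.lo ≤ r → cntN r a.2 * P.p1 ^ r ≤ P.q1 ^ r) ?_
      (Primrec.succ.comp Primrec.fst)
    refine pp_imp ?_ ?_
    · exact Primrec.nat_le.comp (Primrec.const P.lo) Primrec.snd
    · refine Primrec.nat_le.comp (Primrec.nat_mul.comp ?_ ?_) ?_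
      · exact pr_cntN.comp (Primrec.snd.pair (Primrec.snd.comp Primrec.fst))
      · exact pr_pow.comp (Primrec.const P.p1) Primrec.snd
      · exact pr_pow.comp (Primrec.const P.q1) Primrec.snd

theorem pr_Safe : PrimrecPred fun a : ℕ × List Bool × List Bool => Safe P a.1 a.2.1 a.2.2 := by
  unfold Safe
  have ez : Primrec fun a : ℕ × List Bool × List Bool => a.2.2 := Primrec.snd.comp Primrec.snd
  refine PrimrecPred.and ?_ ?_
  · exact Primrec.eq.comp (Primrec.list_take.comp (Primrec.const P.x.length) ez) (Primrec.const P.x)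
  · refine PP.all_lt (f := fun a : ℕ × List Bool × List Bool => a.2.2.length + 1)
      (p := fun a n => P.x.length < n → P.td * potN P a.1 a.2.1 (a.2.2.take n) ≤ P.tn * P.q ^ a.1)
      ?_ (Primrec.succ.comp (Primrec.list_length.comp ez))
    refine pp_imp ?_ ?_
    · exact Primrec.nat_lt.comp (Primrec.const _) Primrec.snd
    · have eu : Primrec fun b : (ℕ × List Bool × List Bool) × ℕ => b.1.1 :=
        Primrec.fst.comp Primrec.fst
      have eL : Primrec fun b : (ℕ × List Bool × List Bool) × ℕ => b.1.2.1 :=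
        Primrec.fst.comp (Primrec.snd.comp Primrec.fst)
      refine Primrec.nat_le.comp (Primrec.nat_mul.comp (Primrec.const P.td) ?_)
        (Primrec.nat_mul.comp (Primrec.const P.tn) (pr_pow.comp (Primrec.const P.q) eu))
      exact (pr_potN P).comp (eu.pair (eL.pair (Primrec.list_take.comp Primrec.snd
        (ez.comp Primrec.fst))))

theorem s1_WIT {G : List Bool × ℕ × ℕ → Prop} (hG : S1 G) : S1 (WIT P G) := by
  unfold WIT
  refine S1.and (S1.of_prim (PrimrecPred.and ?_ ?_)) (S1.ex (S1.all_mem (S1.or (S1.of_prim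
    (PrimrecPred.not ?_)) (S1.ex (S1.and (S1.of_prim (PrimrecPred.and ?_ ?_)) (S1.ex (S1.and
    (S1.of_prim ?_) (S1.all_lt (hG.comp ?_) ?_)))))) ?_))
  · refine PP.all_mem (f := fun a : ℕ × List (List Bool) => a.2)
      (p := fun a w => w.length = P.K * a.1) ?_ Primrec.snd
    exact Primrec.eq.comp (Primrec.list_length.comp Primrec.snd)
      (Primrec.nat_mul.comp (Primrec.const P.K) (Primrec.fst.comp Primrec.fst))
  · exact Primrec.nat_le.comp (Primrec.list_length.comp Primrec.snd)
      (pr_pow.comp (Primrec.const 2) (Primrec.nat_mul.comp (Primrec.const P.e) Primrec.fst))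
  · refine (pr_Ok P).comp (f := fun a : ((ℕ × List (List Bool)) × ℕ) × List Bool =>
      (P.C1 * (a.1.2 + 1), a.2)) ?_
    exact (Primrec.nat_mul.comp (Primrec.const P.C1) (Primrec.succ.comp
      (Primrec.snd.comp Primrec.fst))).pair Primrec.snd
  · exact Primrec.eq.comp (Primrec.list_length.comp Primrec.snd)
      (Primrec.snd.comp (Primrec.fst.comp Primrec.fst))
  · refine (pr_Safe P).comp (f := fun a : (((ℕ × List (List Bool)) × ℕ) × List Bool) × List Bool =>
      (P.C1 * (a.1.1.2 + 1), a.1.2, a.2)) ?_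
    exact (Primrec.nat_mul.comp (Primrec.const P.C1) (Primrec.succ.comp
      (Primrec.snd.comp (Primrec.fst.comp Primrec.fst)))).pair
      ((Primrec.snd.comp Primrec.fst).pair Primrec.snd)
  · exact pr_memV (f := fun a : ((((ℕ × List (List Bool)) × ℕ) × List Bool) × List Bool) × List Bool =>
      a.1.1.1.1.2) (g := fun a => a.2)
      (Primrec.snd.comp (Primrec.fst.comp (Primrec.fst.comp (Primrec.fst.comp Primrec.fst))))
      Primrec.snd
  · have e1 : Primrec fun a : (((((ℕ × List (List Bool)) × ℕ) × List Bool) × List Bool) × List Bool) × ℕ =>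
      (a.1.2.getD a.2 false).toNat := by
      have h1 : Primrec (fun b : Bool => b.toNat) := Primrec.dom_finite _
      exact h1.comp ((Primrec.list_getD false).comp (Primrec.snd.comp Primrec.fst) Primrec.snd)
    exact ((Primrec.snd.comp (Primrec.fst.comp Primrec.fst))).pair (Primrec.snd.pair e1)
  · exact Primrec.nat_mul.comp (Primrec.const P.K) (Primrec.fst.comp (Primrec.fst.comp
      (Primrec.fst.comp (Primrec.fst.comp Primrec.fst))))
  · refine pr_strs.comp (pr_KK.comp ?_)
    exact Primrec.nat_mul.comp (Primrec.const P.C1) (Primrec.succ.comp Primrec.snd)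

end Pool.Agent.W968.SCx
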