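import Mathlib
import Pool.Agent.W968.SCx.Comp
import Pool.Agent.W968.SCx.Abs

set_option autoImplicit false

namespace Pool.Agent.W968.SCx

open Encodable Pool.Agent.Helper227 Pool.Agent.H561R3 Finset Classical

variable (P : Par)

/-- the rate -/
noncomputable def tt : ℝ := (P.p : ℝ) / P.q

/-- the set coded by `L` -/
noncomputable def AL (u : ℕ) (L : List Bool) : Finset (List Bool) :=
  (upTo u).toFinset.filter fun g => inL L g

theorem mem_AL {u : ℕ} {L g : List Bool} : g ∈ AL u L ↔ g.length ≤ u ∧ inL L g := by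
  simp [AL, mem_upTo]

theorem nodup_upTo (b : ℕ) : (upTo b).Nodup := by
  unfold upTo
  rw [List.nodup_flatMap]
  refine ⟨fun n _ => nodup_strs n, ?_⟩
  refine List.Pairwise.imp ?_ (List.nodup_range (n := b + 1))
  intro a c hac
  simp only [Function.onFun, List.Disjoint]
  intro g h1 h2
  rw [mem_strs] at h1 h2
  exact hac (h1.symm.trans h2)

theorem suffix_take_iff {z g : List Bool} {j : ℕ} (hj : j ≤ g.length) :
    g.take j <:+ z ↔ z.drop (z.length - j) = g.take j := by
  rw [List.suffix_iff_eq_drop, List.length_take, Nat.min_eq_left hj]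
  exact eq_comm

theorem num_real (hq : 0 < P.q) {u : ℕ} {z g : List Bool} (hg : g.length ≤ u) :
    (num P u z g : ℝ) = (P.q : ℝ) ^ u * phi (tt P) z g := by
  have hq' : (0 : ℝ) < P.q := by exact_mod_cast hq
  unfold num phi
  rw [← List.sum_toFinset _ List.nodup_range, List.toFinset_range, Nat.cast_sum, Finset.mul_sum]
  refine Finset.sum_congr rfl fun j hj => ?_
  have hj' : j ≤ g.length := by
    have := mem_range.1 hj
    omega
  by_cases hs : g.take j <:+ z
  · have hs' := (suffix_take_iff hj').1 hs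
    rw [if_pos hs, if_pos hs']
    have h1 : (P.q : ℝ) ^ u = P.q ^ (u - (g.length - j)) * P.q ^ (g.length - j) := by
      rw [← pow_add]
      congr 1
      omega
    unfold tt
    rw [h1, div_pow]
    push_cast
    field_simp
  · have hs' := (suffix_take_iff hj').not.1 hs
    rw [if_neg hs, if_neg hs']
    simp

theorem potN_real (hq : 0 < P.q) (u : ℕ) (L z : List Bool) :
    (potN P u L z : ℝ) = (P.q : ℝ) ^ u * ∑ g ∈ AL u L, phi (tt P) z g := by
  unfold potN
  rw [← List.sum_toFinset _ (nodup_upTo u), Nat.cast_sum, Finset.mul_sum, AL, Finset.sum_filter]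
  refine Finset.sum_congr rfl fun g hg => ?_
  have hg' : g.length ≤ u := by
    rw [List.mem_toFinset, mem_upTo] at hg
    exact hg
  by_cases h : inL L g
  · rw [if_pos h, if_pos h, num_real P hq hg']
  · rw [if_neg h, if_neg h]
    simp

/-- path safety -/
def PS (t θ : ℝ) (x : List Bool) (A : Finset (List Bool)) (z : List Bool) : Prop :=
  x <+: z ∧ ∀ n, x.length < n → n ≤ z.length → ∑ g ∈ A, phi t (z.take n) g ≤ θ

theorem Safe_iff (hq : 0 < P.q) (htd : 0 < P.td) (u : ℕ) (L z : List Bool) :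
    Safe P u L z ↔ PS (tt P) ((P.tn : ℝ) / P.td) P.x (AL u L) z := by
  have hq' : (0 : ℝ) < P.q := by exact_mod_cast hq
  have htd' : (0 : ℝ) < P.td := by exact_mod_cast htd
  unfold Safe PS
  rw [List.prefix_iff_eq_take]
  refine and_congr eq_comm ?_
  constructor
  · intro h n h1 h2
    have h3 := h n (by omega) h1
    have h4 : (P.td : ℝ) * potN P u L (z.take n) ≤ P.tn * (P.q : ℝ) ^ u := by exact_mod_cast h3
    rw [potN_real P hq] at h4
    rw [le_div_iff₀ htd']
    have h5 : (P.q : ℝ) ^ u * ((∑ g ∈ AL u L, phi (tt P) (z.take n) g) * P.td) ≤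
        (P.q : ℝ) ^ u * P.tn := by linarith
    exact le_of_mul_le_mul_left h5 (by positivity)
  · intro h n h1 h2
    have h3 := h n h2 (by omega)
    rw [le_div_iff₀ htd'] at h3
    have h4 : (P.td : ℝ) * potN P u L (z.take n) ≤ P.tn * (P.q : ℝ) ^ u := by
      rw [potN_real P hq]
      have := mul_le_mul_of_nonneg_left h3 (pow_pos hq' u).le
      linarith
    exact_mod_cast h4

theorem cntN_eq {u r : ℕ} (hr : r ≤ u) (L : List Bool) : cntN r L = cnt (AL u L) r := by
  unfold cntN cnt
  rw [← List.sum_toFinset _ (nodup_strs r), Finset.card_filter, AL, Finset.sum_filter]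
  have h1 : (upTo u).toFinset.filter (fun g => g.length = r) = (strs r).toFinset := by
    ext g
    simp only [mem_filter, List.mem_toFinset, mem_upTo, mem_strs]
    constructor
    · exact fun h => h.2
    · intro h; exact ⟨by omega, h⟩
  rw [← h1, Finset.sum_filter]
  refine Finset.sum_congr rfl fun g _ => ?_
  by_cases h2 : inL L g <;> by_cases h3 : g.length = r <;> simp [h2, h3]

theorem Ok_iff (u : ℕ) (L : List Bool) : Ok P u L ↔
    (∀ g : List Bool, g.length ≤ u → g.length < P.lo → (inL L g ↔ g ∈ P.D)) ∧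
    ∀ r ≤ u, P.lo ≤ r → cnt (AL u L) r * P.p1 ^ r ≤ P.q1 ^ r := by
  unfold Ok
  refine and_congr ?_ ?_
  · constructor
    · intro h g h1 h2
      exact h g (mem_upTo.2 h1) h2
    · intro h g h1 h2
      exact h g (mem_upTo.1 h1) h2
  · constructor
    · intro h r h1 h2
      rw [← cntN_eq h1]
      exact h r (by omega) h2
    · intro h r h1 h2
      rw [cntN_eq (u := u) (by omega)]
      exact h r (by omega) h2

/-- the strings computed by safe conditions -/
noncomputable def NN (G : List Bool × ℕ × ℕ → Prop) (m v : ℕ) (A : Finset (List Bool)) :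
    Finset (List Bool) :=
  (FS m).filter fun w => ∃ z : List Bool, z.length = v ∧
    PS (tt P) ((P.tn : ℝ) / P.td) P.x (P.D.toFinset ∪ A) z ∧
    ∀ i < m, G (z, i, (w.getD i false).toNat)

theorem tt_nonneg : 0 ≤ tt P := by unfold tt; positivity

theorem PS.mono {t θ : ℝ} (ht : 0 ≤ t) {x : List Bool} {A B : Finset (List Bool)} {z : List Bool}
    (h : PS t θ x B z) (hAB : A ⊆ B) : PS t θ x A z :=
  ⟨h.1, fun n h1 h2 => (Finset.sum_le_sum_of_subset_of_nonneg hAB
    fun _ _ _ => phi_nonneg ht _ _).trans (h.2 n h1 h2)⟩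

theorem NN_anti (G : List Bool × ℕ × ℕ → Prop) (m v : ℕ) (A B : Finset (List Bool)) (h : A ⊆ B) :
    NN P G m v B ⊆ NN P G m v A := by
  intro w hw
  simp only [NN, mem_filter] at hw ⊢
  obtain ⟨h1, z, h2, h3, h4⟩ := hw
  exact ⟨h1, z, h2, h3.mono (tt_nonneg P) (Finset.union_subset_union_right h), h4⟩

/-- the family of the sets which the opponent may build -/
def Big (m u T k : ℕ) (A : Finset (List Bool)) : Prop :=
  (∀ g ∈ A, P.lo ≤ g.length ∧ g.length ≤ u) ∧
  ∀ r, cnt A r * P.p1 ^ r ≤ (if r ≤ m then k else k * T) * P.q1 ^ r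

/-- the short sets -/
noncomputable def Sh (m : ℕ) : Finset (Finset (List Bool)) :=
  ((upTo m).toFinset.filter fun g => P.lo ≤ g.length).powerset.filter fun S =>
    ∀ r, cnt S r * P.p1 ^ r ≤ P.q1 ^ r

/-- the long sets -/
def Lo (m u : ℕ) : Set (Finset (List Bool)) :=
  {L | (∀ g ∈ L, P.lo ≤ g.length ∧ m < g.length ∧ g.length ≤ u) ∧
    ∀ r, cnt L r * P.p1 ^ r ≤ P.q1 ^ r}

theorem mem_Sh {m : ℕ} {S : Finset (List Bool)} : S ∈ Sh P m ↔
    (∀ g ∈ S, P.lo ≤ g.length ∧ g.length ≤ m) ∧ ∀ r, cnt S r * P.p1 ^ r ≤ P.q1 ^ r := by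
  simp only [Sh, mem_filter, mem_powerset, Finset.subset_iff, List.mem_toFinset, mem_upTo]
  refine and_congr ?_ Iff.rfl
  constructor
  · intro h g hg
    exact ⟨(h hg).2, (h hg).1⟩
  · intro h g hg
    exact ⟨(h g hg).2, (h g hg).1⟩

theorem Big_step {m u T k : ℕ} (hmu : m ≤ u) {G S : Finset (List Bool)}
    {L : ℕ → Finset (List Bool)} (hG : Big P m u T k G) (hS : S ∈ Sh P m)
    (hL : ∀ i, L i ∈ Lo P m u) : Big P m u T (k + 1) (G ∪ S ∪ (range T).biUnion L) := by
  rw [mem_Sh] at hS
  constructor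
  · intro g hg
    simp only [mem_union, mem_biUnion, mem_range] at hg
    rcases hg with (hg | hg) | ⟨i, _, hg⟩
    · exact hG.1 g hg
    · exact ⟨(hS.1 g hg).1, (hS.1 g hg).2.trans hmu⟩
    · exact ⟨((hL i).1 g hg).1, ((hL i).1 g hg).2.2⟩
  · intro r
    have h1 := cnt_union_le (G ∪ S) ((range T).biUnion L) r
    have h2 := cnt_union_le G S r
    have h3 := cnt_biUnion_le T L r
    have h4 := hG.2 r
    by_cases hr : r ≤ m
    · rw [if_pos hr] at h4 ⊢
      have h5 : cnt ((range T).biUnion L) r = 0 := by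
        refine cnt_eq_zero fun g hg => ?_
        obtain ⟨i, _, hg⟩ := mem_biUnion.1 hg
        have := ((hL i).1 g hg).2.1
        omega
      have h6 := hS.2 r
      calc cnt (G ∪ S ∪ (range T).biUnion L) r * P.p1 ^ r ≤ (cnt G r + cnt S r) * P.p1 ^ r :=
            Nat.mul_le_mul_right _ (by omega)
        _ = cnt G r * P.p1 ^ r + cnt S r * P.p1 ^ r := by ring
        _ ≤ k * P.q1 ^ r + P.q1 ^ r := Nat.add_le_add h4 h6
        _ = (k + 1) * P.q1 ^ r := by ring
    · rw [if_neg hr] at h4 ⊢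
      have h5 : cnt S r = 0 := by
        refine cnt_eq_zero fun g hg => ?_
        have := (hS.1 g hg).2
        omega
      have h6 : (∑ i ∈ range T, cnt (L i) r) * P.p1 ^ r ≤ T * P.q1 ^ r := by
        rw [Finset.sum_mul]
        refine (Finset.sum_le_sum fun i _ => (hL i).2 r).trans ?_
        simp
      calc cnt (G ∪ S ∪ (range T).biUnion L) r * P.p1 ^ r
          ≤ (cnt G r + ∑ i ∈ range T, cnt (L i) r) * P.p1 ^ r := Nat.mul_le_mul_right _ (by omega)
        _ = cnt G r * P.p1 ^ r + (∑ i ∈ range T, cnt (L i) r) * P.p1 ^ r := by ring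
        _ ≤ k * T * P.q1 ^ r + T * P.q1 ^ r := Nat.add_le_add h4 h6
        _ = (k + 1) * T * P.q1 ^ r := by ring

theorem Big_mono {m u T k k' : ℕ} (hk : k ≤ k') {A : Finset (List Bool)} (h : Big P m u T k A) :
    Big P m u T k' A := by
  refine ⟨h.1, fun r => (h.2 r).trans ?_⟩
  refine Nat.mul_le_mul_right _ ?_
  split_ifs
  · exact hk
  · exact Nat.mul_le_mul_right _ hk

/-- If the opponent cannot win, there is a small list of strings meeting all the sets. -/
theorem wit_of_caseB (hq : 0 < P.q) (htd : 0 < P.td) {G : List Bool × ℕ × ℕ → Prop}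
    {h v T : ℕ} (hh : 0 < h) (hKe : P.e ≤ P.K)
    (hmu : P.K * h ≤ P.C1 * (v + 1))
    (hT : 4 * 2 ^ ((P.K - P.e) * h) * h ≤ T)
    (hS : ((Sh P (P.K * h)).card : ℝ) < Real.exp (2 ^ (P.e * h) / (8 * 2 ^ h)))
    (hne : ∀ A, Big P (P.K * h) (P.C1 * (v + 1)) T (P.K + 1) A →
      (NN P G (P.K * h) v A).Nonempty) :
    ∃ V, WIT P G (h, V) := by
  have hc0 : (NN P G (P.K * h) v ∅).card ≤ 2 ^ (P.K * h) := by
    refine (Finset.card_le_card (Finset.filter_subset _ _)).trans ?_
    rw [card_FS]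
  have hB0 : Big P (P.K * h) (P.C1 * (v + 1)) T 0 ∅ := ⟨by simp, fun r => by simp [cnt]⟩
  obtain ⟨V, hV1, hV2, hV3⟩ := minmax (NN P G (P.K * h) v) (NN_anti P G _ _)
    (Sh P (P.K * h)) (Lo P (P.K * h) (P.C1 * (v + 1))) (Big P (P.K * h) (P.C1 * (v + 1)) T)
    hh hKe hc0 hB0 (fun k G S L h1 h2 h3 => Big_step P hmu h1 h2 h3)
    (fun k hk A hA => hne A (Big_mono P hk hA)) hT hS
  refine ⟨V.toList, ⟨?_, ?_⟩, v, fun L _ => ?_⟩
  · intro w hw
    simp only [Finset.mem_toList] at hw
    have := hV1 hw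
    simp only [NN, mem_filter] at this
    exact mem_FS.1 this.1
  · simpa using hV2
  · rw [or_iff_not_imp_left]
    intro hOk
    rw [not_not, Ok_iff] at hOk
    set u := P.C1 * (v + 1) with hu
    set m := P.K * h with hm
    have hsub : ∀ B : Finset (List Bool), B ⊆ AL u L → (∀ g ∈ B, P.lo ≤ g.length) →
        ∀ r, cnt B r * P.p1 ^ r ≤ P.q1 ^ r := by
      intro B hB hBlo r
      by_cases hr1 : r ≤ u
      · by_cases hr2 : P.lo ≤ r
        · exact (Nat.mul_le_mul_right _ (cnt_mono hB r)).trans (hOk.2 r hr1 hr2)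
        · have : cnt B r = 0 := cnt_eq_zero fun g hg => by
            have := hBlo g hg
            omega
          rw [this]; simp
      · have : cnt B r = 0 := cnt_eq_zero fun g hg => by
            have := (mem_AL.1 (hB hg)).1
            omega
        rw [this]; simp
    have hSmem : (AL u L).filter (fun g => P.lo ≤ g.length ∧ g.length ≤ m) ∈ Sh P m := by
      rw [mem_Sh]
      exact ⟨fun g hg => (mem_filter.1 hg).2, hsub _ (Finset.filter_subset _ _)
        fun g hg => (mem_filter.1 hg).2.1⟩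
    have hLmem : (AL u L).filter (fun g => P.lo ≤ g.length ∧ m < g.length) ∈ Lo P m u := by
      refine ⟨fun g hg => ?_, hsub _ (Finset.filter_subset _ _)
        fun g hg => (mem_filter.1 hg).2.1⟩
      have := mem_filter.1 hg
      exact ⟨this.2.1, this.2.2, (mem_AL.1 this.1).1⟩
    obtain ⟨w, hw⟩ := hV3 _ hSmem _ hLmem
    rw [mem_inter] at hw
    obtain ⟨hw1, hw2⟩ := hw
    simp only [NN, mem_filter] at hw1
    obtain ⟨_, z, hz1, hz2, hz3⟩ := hw1
    refine ⟨z, ⟨hz1, (Safe_iff P hq htd _ _ _).2 (hz2.mono (tt_nonneg P) ?_)⟩, w, ?_, hz3⟩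
    · intro g hg
      simp only [mem_union, List.mem_toFinset, mem_filter]
      by_cases h1 : g.length < P.lo
      · left
        have h2 := mem_AL.1 hg
        exact (hOk.1 g h2.1 h1).1 h2.2
      · right
        by_cases h2 : g.length ≤ m
        · left; exact ⟨hg, by omega, h2⟩
        · right; exact ⟨hg, by omega, by omega⟩
    · simpa using hw2

end Pool.Agent.W968.SCx
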