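import Mathlib
import Pool.Agent.W968.SCx.Link

set_option autoImplicit false

namespace Pool.Agent.W968.SCx

open Pool.Agent.H561R3 Finset Classical

theorem card_small_sets {α : Type*} [DecidableEq α] (U : Finset α) (B : ℕ) :
    (U.powerset.filter fun S => S.card ≤ B).card ≤ (U.card + 1) ^ B := by
  induction B with
  | zero =>
    have : (U.powerset.filter fun S => S.card ≤ 0) ⊆ {∅} := by
      intro S hS
      simp only [mem_filter, Nat.le_zero, Finset.card_eq_zero] at hS
      simp [hS.2]
    simpa using Finset.card_le_card this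
  | succ B ih =>
    let f : Finset α × Option α → Finset α := fun p => p.2.elim p.1 fun a => insert a p.1
    have hsub : (U.powerset.filter fun S => S.card ≤ B + 1) ⊆
        ((U.powerset.filter fun S => S.card ≤ B) ×ˢ (Finset.insertNone U)).image f := by
      intro S hS
      simp only [mem_filter, mem_powerset] at hS
      rw [mem_image]
      by_cases h : S.card ≤ B
      · refine ⟨(S, none), ?_, rfl⟩
        rw [mem_product]
        exact ⟨by simp [hS.1, h], by simp⟩
      · have hne : S.Nonempty := by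
          rw [← Finset.card_pos]; omega
        obtain ⟨a, ha⟩ := hne
        refine ⟨(S.erase a, some a), ?_, ?_⟩
        · rw [mem_product]
          refine ⟨?_, ?_⟩
          · simp only [mem_filter, mem_powerset]
            refine ⟨(Finset.erase_subset _ _).trans hS.1, ?_⟩
            rw [Finset.card_erase_of_mem ha]
            omega
          · simpa using hS.1 ha
        · simp only [f, Option.elim]
          exact Finset.insert_erase ha
    refine (Finset.card_le_card hsub).trans (Finset.card_image_le.trans ?_)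
    rw [Finset.card_product, Finset.card_insertNone, pow_succ]
    exact Nat.mul_le_mul_right _ ih

theorem card_upTo (m : ℕ) : (upTo m).toFinset.card + 1 ≤ 2 ^ (m + 1) := by
  induction m with
  | zero =>
    have : (upTo 0).toFinset = {[]} := by
      ext x
      simp [mem_upTo]
    rw [this]
    simp
  | succ m ih =>
    have h1 : (upTo (m + 1)).toFinset ⊆ (upTo m).toFinset ∪ FS (m + 1) := by
      intro x hx
      simp only [List.mem_toFinset, mem_upTo, mem_union, mem_FS] at hx ⊢
      omega
    have h2 := (Finset.card_le_card h1).trans (Finset.card_union_le _ _)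
    rw [card_FS] at h2
    rw [pow_succ]
    omega

/-- the number of short sets -/
theorem card_Sh_lt (P : Par) {s : ℝ} (hs0 : 0 < s) (hs1 : s ≤ 1)
    (hp1 : 0 < P.p1) (hsp : s * P.q1 ≤ P.p1) {m : ℕ} {X : ℝ}
    (hX : ((m : ℝ) + 2) ^ 2 * (1 / s) ^ m < X) : ((Sh P m).card : ℝ) < Real.exp X := by
  have hp1' : (0 : ℝ) < P.p1 := by exact_mod_cast hp1
  have hinv : (1 : ℝ) ≤ 1 / s := by
    rw [le_div_iff₀ hs0, one_mul]; exact hs1
  obtain ⟨B, hBdef⟩ : ∃ B : ℕ, B = ⌊((m : ℝ) + 1) * (1 / s) ^ m⌋₊ := ⟨_, rfl⟩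
  have hY0 : 0 ≤ ((m : ℝ) + 1) * (1 / s) ^ m := by positivity
  have hB : (B : ℝ) ≤ ((m : ℝ) + 1) * (1 / s) ^ m := by
    rw [hBdef]; exact Nat.floor_le hY0
  have hcard : ∀ S ∈ Sh P m, S.card ≤ B := by
    intro S hS
    rw [mem_Sh] at hS
    rw [hBdef]
    refine Nat.le_floor ?_
    have h1 : S.card = ∑ r ∈ range (m + 1), cnt S r := by
      unfold cnt
      refine Finset.card_eq_sum_card_fiberwise (f := fun g : List Bool => g.length) ?_
      intro g hg
      simp only [coe_range, Set.mem_Iio]
      have := (hS.1 g hg).2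
      omega
    rw [h1, Nat.cast_sum]
    have h2 : ∀ r ∈ range (m + 1), (cnt S r : ℝ) ≤ (1 / s) ^ m := by
      intro r hr
      have h3 := hS.2 r
      have h4 : (cnt S r : ℝ) * P.p1 ^ r ≤ P.q1 ^ r := by exact_mod_cast h3
      have h5 : (s * P.q1) ^ r ≤ (P.p1 : ℝ) ^ r := pow_le_pow_left₀ (by positivity) hsp r
      have h6 : (cnt S r : ℝ) * (s ^ r * P.p1 ^ r) ≤ P.p1 ^ r := by
        rw [mul_pow] at h5
        have : (0 : ℝ) < s ^ r := by positivity
        nlinarith
      have h7 : (cnt S r : ℝ) * s ^ r ≤ 1 := by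
        have h8 : (0 : ℝ) < (P.p1 : ℝ) ^ r := by positivity
        have h9 : ((cnt S r : ℝ) * s ^ r) * P.p1 ^ r ≤ 1 * P.p1 ^ r := by linarith
        exact le_of_mul_le_mul_right h9 h8
      have h8 : (cnt S r : ℝ) ≤ (1 / s) ^ r := by
        rw [one_div, inv_pow, ← one_div, le_div_iff₀ (by positivity)]
        exact h7
      refine h8.trans (pow_le_pow_right₀ hinv ?_)
      have := mem_range.1 hr
      omega
    refine (Finset.sum_le_sum h2).trans ?_
    rw [Finset.sum_const, nsmul_eq_mul, card_range]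
    push_cast
    exact le_rfl
  have hsub : Sh P m ⊆ (upTo m).toFinset.powerset.filter fun S => S.card ≤ B := by
    intro S hS
    rw [mem_filter]
    refine ⟨?_, hcard S hS⟩
    rw [mem_Sh] at hS
    rw [mem_powerset]
    intro g hg
    rw [List.mem_toFinset, mem_upTo]
    exact (hS.1 g hg).2
  have h1 : (Sh P m).card ≤ (2 ^ (m + 1)) ^ B :=
    (Finset.card_le_card hsub).trans ((card_small_sets _ B).trans
      (Nat.pow_le_pow_left (card_upTo m) B))
  have h2 : ((Sh P m).card : ℝ) ≤ (2 : ℝ) ^ ((m + 1) * B) := by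
    rw [pow_mul]
    exact_mod_cast h1
  refine lt_of_le_of_lt h2 ?_
  have h3 : (2 : ℝ) ≤ Real.exp 1 := by
    have := Real.add_one_le_exp (1 : ℝ)
    linarith
  have h4 : (2 : ℝ) ^ ((m + 1) * B) ≤ Real.exp (((m + 1) * B : ℕ) : ℝ) := by
    have := pow_le_pow_left₀ (by norm_num) h3 ((m + 1) * B)
    rwa [← Real.exp_nat_mul, mul_one] at this
  refine lt_of_le_of_lt h4 (Real.exp_lt_exp.2 (lt_of_le_of_lt ?_ hX))
  push_cast
  have h5 : (0 : ℝ) ≤ (1 / s) ^ m := by positivity
  have h6 : ((m : ℝ) + 1) * B ≤ (m + 1) * ((m + 1) * (1 / s) ^ m) :=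
    mul_le_mul_of_nonneg_left hB (by positivity)
  refine h6.trans ?_
  have h7 : ((m : ℝ) + 1) * (m + 1) ≤ (m + 2) ^ 2 := by
    have : (0 : ℝ) ≤ m := Nat.cast_nonneg m
    nlinarith
  have := mul_le_mul_of_nonneg_right h7 h5
  linarith

end Pool.Agent.W968.SCx
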