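import Mathlib
import Pool.Agent.W968.SCx.Link
import Pool.Agent.Helper227.Use

set_option autoImplicit false

namespace Pool.Agent.W968.SCx

open Pool.Agent.Helper227 Pool.Agent.H561R3 Finset Classical Filter

/-- `F` has at most `C * (1/t)^r` strings of every length `r` -/
def Typ (t C : ℝ) (F : Set (List Bool)) : Prop :=
  ∀ A : Finset (List Bool), (∀ g ∈ A, g ∈ F) → ∀ r, (cnt A r : ℝ) ≤ C * (1 / t) ^ r

theorem Typ.union {t C C' : ℝ} {F G : Set (List Bool)} (h : Typ t C F) (h' : Typ t C' G) :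
    Typ t (C + C') (F ∪ G) := by
  intro A hA r
  have h1 : A = A.filter (fun g => g ∈ F) ∪ A.filter (fun g => ¬ g ∈ F) := by
    ext g; simp only [mem_union, mem_filter]; tauto
  have h2 := cnt_union_le (A.filter (fun g => g ∈ F)) (A.filter (fun g => ¬ g ∈ F)) r
  rw [← h1] at h2
  have h3 := h (A.filter (fun g => g ∈ F)) (fun g hg => (mem_filter.1 hg).2) r
  have h4 := h' (A.filter (fun g => ¬ g ∈ F)) (fun g hg => by
    have := mem_filter.1 hg
    exact (hA g this.1).resolve_left this.2) r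
  have h5 : (cnt A r : ℝ) ≤ cnt (A.filter (fun g => g ∈ F)) r + cnt (A.filter (fun g => ¬ g ∈ F)) r := by
    exact_mod_cast h2
  rw [add_mul]
  linarith

theorem Typ.mono {t t' C C' : ℝ} {F : Set (List Bool)} (h : Typ t C F) (ht' : 0 < t') (ht : t' ≤ t)
    (hC0 : 0 ≤ C) (hC : C ≤ C') : Typ t' C' F := by
  intro A hA r
  refine (h A hA r).trans ?_
  refine mul_le_mul hC (pow_le_pow_left₀ ?_ ?_ r) ?_ (hC0.trans hC)
  · have : 0 < t := lt_of_lt_of_le ht' ht
    positivity
  · exact one_div_le_one_div_of_le ht' ht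
  · have : 0 < t := lt_of_lt_of_le ht' ht
    positivity

variable (P : Par)

/-- the limit of the bad sets -/
def Ginf (a : ℕ → Finset (List Bool)) : Set (List Bool) :=
  {g | ∀ᶠ v in (hyperfilter ℕ : Filter ℕ), g ∈ a v}

theorem Ginf_fin {a : ℕ → Finset (List Bool)} {B : Finset (List Bool)}
    (hB : ∀ g ∈ B, g ∈ Ginf a) : ∃ v, B ⊆ a v := by
  have h1 : ∀ᶠ v in (hyperfilter ℕ : Filter ℕ), ∀ g ∈ B, g ∈ a v :=
    (Filter.eventually_all_finset B).2 hB
  exact h1.exists

theorem Ginf_lo {a : ℕ → Finset (List Bool)} {lo : ℕ} (ha : ∀ v, ∀ g ∈ a v, lo ≤ g.length) :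
    ∀ g ∈ Ginf a, lo ≤ g.length := by
  intro g hg
  obtain ⟨v, hv⟩ := Filter.Eventually.exists (f := (hyperfilter ℕ : Filter ℕ)) hg
  exact ha v g hv

theorem Ginf_W {a : ℕ → Finset (List Bool)} {t δ : ℝ} (ht : 0 ≤ t)
    (ha : ∀ v, ∑ g ∈ a v, t ^ g.length ≤ δ) : WLe t (Ginf a) δ := by
  intro B hB
  obtain ⟨v, hv⟩ := Ginf_fin hB
  exact (Finset.sum_le_sum_of_subset_of_nonneg hv fun _ _ _ => pow_nonneg ht _).trans (ha v)

theorem Ginf_Typ {a : ℕ → Finset (List Bool)} {t C : ℝ}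
    (ha : ∀ v r, (cnt (a v) r : ℝ) ≤ C * (1 / t) ^ r) : Typ t C (Ginf a) := by
  intro B hB r
  obtain ⟨v, hv⟩ := Ginf_fin hB
  refine le_trans ?_ (ha v r)
  exact_mod_cast cnt_mono hv r

theorem exists_small_pow {ρ : ℝ} (h0 : 0 ≤ ρ) (h1 : ρ < 1) (c ε : ℝ) (hε : 0 < ε) :
    ∃ n : ℕ, ∀ m ≥ n, c * ρ ^ m ≤ ε := by
  have h2 : Tendsto (fun m : ℕ => c * ρ ^ m) atTop (nhds (c * 0)) :=
    (tendsto_pow_atTop_nhds_zero_of_lt_one h0 h1).const_mul c
  rw [mul_zero] at h2
  have h3 := h2.eventually (ge_mem_nhds hε)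
  exact eventually_atTop.1 h3

/-- the key property of the limit set -/
theorem no_compute {G : List Bool × ℕ × ℕ → Prop}
    (hG : ∀ σ τ n m, σ <+: τ → G (σ, n, m) → G (τ, n, m))
    {m : ℕ} {a : ℕ → Finset (List Bool)} (ht : 1 / 2 < tt P) (ht1 : tt P ≤ 1)
    {t1 C w θ' : ℝ} (ht1' : tt P < t1) (hC : 0 ≤ C)
    (ha : ∀ v, NN P G m (v + m) (a v) = ∅)
    (haT : ∀ v r, (cnt (a v) r : ℝ) ≤ C * (1 / t1) ^ r)
    (hw : w ≤ (1 - 1 / (2 * tt P)) / 8)
    (hW : ∀ v, WLe (tt P) (↑(P.D.toFinset ∪ a v)) w)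
    (hθ : 1 / 8 ≤ (P.tn : ℝ) / P.td) (hθ' : θ' < (P.tn : ℝ) / P.td)
    {F : Set (List Bool)} (hD : ∀ g ∈ P.D, g ∈ F)
    {X : ℕ → Bool} (hx : P.x = pre X P.x.length)
    (hX : ∀ n > P.x.length, PLe (tt P) (F ∪ Ginf a) (pre X n) θ') :
    ¬ ∃ w : List Bool, w.length = m ∧ ∀ i < m, ∃ n, G (pre X n, i, (w.getD i false).toNat) := by
  rintro ⟨wd, hwd, hcomp⟩
  have ht0 : 0 < tt P := by linarith
  have ht10 : 0 < t1 := by linarith
  -- a common use bound
  obtain ⟨n0, hn0, hn0'⟩ : ∃ n0, P.x.length < n0 ∧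
      ∀ i < m, G (pre X n0, i, (wd.getD i false).toNat) := by
    have key : ∀ k ≤ m, ∃ n0, ∀ i < k, G (pre X n0, i, (wd.getD i false).toNat) := by
      intro k
      induction k with
      | zero => intro _; exact ⟨0, fun i hi => absurd hi (Nat.not_lt_zero i)⟩
      | succ k ih =>
        intro hk
        obtain ⟨n1, hn1⟩ := ih (by omega)
        obtain ⟨n2, hn2⟩ := hcomp k (by omega)
        refine ⟨max n1 n2, fun i hi => ?_⟩
        rcases Nat.lt_succ_iff_lt_or_eq.1 hi with hi' | rfl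
        · exact hG _ _ _ _ (pre_prefix X (le_max_left _ _)) (hn1 i hi')
        · exact hG _ _ _ _ (pre_prefix X (le_max_right _ _)) hn2
    obtain ⟨n1, hn1⟩ := key m le_rfl
    exact ⟨max n1 (P.x.length + 1), by omega, fun i hi =>
      hG _ _ _ _ (pre_prefix X (le_max_left _ _)) (hn1 i hi)⟩
  -- each bad set is unsafe at some short initial segment of X
  have hunsafe : ∀ v, n0 ≤ v + m → ∃ n ∈ Set.Ioc P.x.length n0,
      (P.tn : ℝ) / P.td < ∑ g ∈ P.D.toFinset ∪ a v, phi (tt P) (pre X n) g := by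
    intro v hv
    by_contra hc
    push Not at hc
    have hP0 : PLe (tt P) (↑(P.D.toFinset ∪ a v)) (pre X n0) ((P.tn : ℝ) / P.td) := by
      intro A hA
      refine (Finset.sum_le_sum_of_subset_of_nonneg (fun g hg => ?_) fun _ _ _ =>
        phi_nonneg ht0.le _ _).trans (hc n0 ⟨hn0, le_rfl⟩)
      exact hA g hg
    obtain ⟨y, hy1, hy2, hy3⟩ := relax ht hw hθ hP0 (hW v) (v + m - n0)
    have hmem : wd ∈ NN P G m (v + m) (a v) := by
      simp only [NN, mem_filter]
      refine ⟨mem_FS.2 hwd, pre X n0 ++ y, ?_, ⟨?_, ?_⟩, ?_⟩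
      · rw [List.length_append, length_pre, hy1]; omega
      · rw [hx]
        exact (pre_prefix X hn0.le).trans (List.prefix_append _ _)
      · intro n h1 h2
        rcases Nat.lt_or_ge n0 n with h3 | h3
        · have h4 : (pre X n0 ++ y).take n = pre X n0 ++ y.take (n - n0) := by
            rw [List.take_append, length_pre, List.take_of_length_le (by rw [length_pre]; omega)]
          rw [h4]
          refine hy3 (n - n0) ?_ _ (fun g hg => hg)
          rw [List.length_append, length_pre, hy1] at h2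
          omega
        · have h4 : (pre X n0 ++ y).take n = pre X n := by
            rw [List.take_append_of_le_length (by rw [length_pre]; exact h3), take_pre _ _ _ h3]
          rw [h4]
          exact hc n ⟨h1, h3⟩
      · intro i hi
        exact hG _ _ _ _ (List.prefix_append _ _) (hn0' i hi)
    rw [ha v] at hmem
    simp at hmem
  have hev : ∀ᶠ v in (hyperfilter ℕ : Filter ℕ), ∃ n ∈ Set.Ioc P.x.length n0,
      (P.tn : ℝ) / P.td < ∑ g ∈ P.D.toFinset ∪ a v, phi (tt P) (pre X n) g := by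
    have h1 : ∀ᶠ v in atTop, n0 ≤ v := eventually_ge_atTop n0
    have h2 : ∀ᶠ v in (hyperfilter ℕ : Filter ℕ), n0 ≤ v := by
      have h3 : (hyperfilter ℕ : Filter ℕ) ≤ atTop := by
        rw [← Nat.cofinite_eq_atTop]
        exact hyperfilter_le_cofinite
      exact h3 h1
    exact h2.mono fun v hv => hunsafe v (by omega)
  rw [Ultrafilter.eventually_exists_mem_iff (Set.finite_Ioc _ _)] at hev
  obtain ⟨n, hn, hevn⟩ := hev
  -- tails
  set ρ := tt P / t1 with hρ
  have hρ0 : 0 ≤ ρ := by positivity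
  have hρ1 : ρ < 1 := by rw [hρ, div_lt_one ht10]; exact ht1'
  obtain ⟨u, hu⟩ := exists_small_pow hρ0 hρ1 (MM (tt P) n * (C / (1 - ρ)))
    ((P.tn : ℝ) / P.td - θ') (by linarith)
  have htail : ∀ v, ∑ g ∈ (a v).filter (fun g => ¬ g.length < u), phi (tt P) (pre X n) g ≤
      (P.tn : ℝ) / P.td - θ' := by
    intro v
    have h1 : ∑ g ∈ (a v).filter (fun g => ¬ g.length < u), (tt P) ^ g.length ≤
        C * (ρ ^ u / (1 - ρ)) := by
      refine W_geom hρ0 hρ1 hC _ (fun g hg => ?_) fun r _ => ?_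
      · have := (mem_filter.1 hg).2
        omega
      · have h2 : (cnt ((a v).filter (fun g => ¬ g.length < u)) r : ℝ) ≤ cnt (a v) r := by
          exact_mod_cast cnt_mono (Finset.filter_subset _ _) r
        have h3 := h2.trans (haT v r)
        have h4 := mul_le_mul_of_nonneg_right h3 (pow_pos ht0 r).le
        refine h4.trans (le_of_eq ?_)
        rw [hρ, div_pow, div_pow, one_pow]
        ring
    have h2 : ∑ g ∈ (a v).filter (fun g => ¬ g.length < u), phi (tt P) (pre X n) g ≤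
        MM (tt P) n * ∑ g ∈ (a v).filter (fun g => ¬ g.length < u), (tt P) ^ g.length := by
      rw [Finset.mul_sum]
      refine Finset.sum_le_sum fun g _ => ?_
      have := phi_le ht0 ht1 (pre X n) g
      rwa [length_pre] at this
    refine h2.trans ((mul_le_mul_of_nonneg_left h1 (MM_nonneg ht0 _)).trans ?_)
    refine le_trans (le_of_eq ?_) (hu u le_rfl)
    ring
  have hlow : ∀ᶠ v in (hyperfilter ℕ : Filter ℕ), ∀ g ∈ (upTo u).toFinset, g ∈ a v → g ∈ Ginf a := by
    rw [Filter.eventually_all_finset]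
    intro g _
    by_cases hg : g ∈ Ginf a
    · exact Eventually.of_forall fun _ _ => hg
    · have h1 : ∀ᶠ v in (hyperfilter ℕ : Filter ℕ), ¬ g ∈ a v := by
        rw [Ultrafilter.eventually_not]
        exact hg
      exact h1.mono fun v hv hg' => absurd hg' hv
  obtain ⟨v, hv1, hv2⟩ := (hevn.and hlow).exists
  have h1 : ∑ g ∈ P.D.toFinset ∪ a v, phi (tt P) (pre X n) g ≤
      ∑ g ∈ P.D.toFinset ∪ (a v).filter (fun g => g.length < u), phi (tt P) (pre X n) g +
      ∑ g ∈ (a v).filter (fun g => ¬ g.length < u), phi (tt P) (pre X n) g := by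
    have h2 : P.D.toFinset ∪ a v ⊆ (P.D.toFinset ∪ (a v).filter (fun g => g.length < u)) ∪
        (a v).filter (fun g => ¬ g.length < u) := by
      intro g hg
      simp only [mem_union, mem_filter] at hg ⊢
      by_cases h3 : g.length < u <;> tauto
    refine (Finset.sum_le_sum_of_subset_of_nonneg h2 fun _ _ _ => phi_nonneg ht0.le _ _).trans ?_
    have h3 := Finset.sum_union_inter (s₁ := P.D.toFinset ∪ (a v).filter (fun g => g.length < u))
      (s₂ := (a v).filter (fun g => ¬ g.length < u)) (f := fun g => phi (tt P) (pre X n) g)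
    have h4 : 0 ≤ ∑ g ∈ (P.D.toFinset ∪ (a v).filter (fun g => g.length < u)) ∩
      (a v).filter (fun g => ¬ g.length < u), phi (tt P) (pre X n) g :=
        Finset.sum_nonneg fun _ _ => phi_nonneg ht0.le _ _
    linarith
  have h2 := hX n hn.1 (P.D.toFinset ∪ (a v).filter (fun g => g.length < u)) (by
    intro g hg
    rcases mem_union.1 hg with hg | hg
    · exact Or.inl (hD g (List.mem_toFinset.1 hg))
    · have := mem_filter.1 hg
      exact Or.inr (hv2 g (by rw [List.mem_toFinset, mem_upTo]; omega) this.1))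
  have h3 := htail v
  linarith

end Pool.Agent.W968.SCx
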