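import Mathlib
import Pool.Agent.W968.SCx.Fail

set_option autoImplicit false

namespace Pool.Agent.W968.SCx

open Pool.Agent.Helper227 Pool.Agent.H561R3 Finset Classical Filter

variable (P : Par)

/-- bound for `F` at the long strings -/
def CntF (F : Set (List Bool)) : Prop :=
  ∀ A : Finset (List Bool), (∀ g ∈ A, g ∈ F) → ∀ r ≥ P.lo, cnt A r * P.p1 ^ r ≤ P.q1 ^ r

theorem use_wit (hq : 0 < P.q) (htd : 0 < P.td) (hp1 : 0 < P.p1) (hq1 : 0 < P.q1)
    (ht0 : 0 < tt P) (ht1 : tt P ≤ 1) (ht1' : tt P < (P.p1 : ℝ) / P.q1)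
    {G : List Bool × ℕ × ℕ → Prop} {h : ℕ} {V : List (List Bool)}
    (hW : WIT P G (h, V)) {F : Set (List Bool)}
    (hDF : ∀ g, g ∈ P.D ↔ g ∈ F ∧ g.length < P.lo) (hF : CntF P F) (hC1 : P.lo ≤ P.C1)
    {τ : ℝ}
    (htail : ∀ v : ℕ, MM (tt P) v * ((tt P / ((P.p1 : ℝ) / P.q1)) ^ (P.C1 * (v + 1) + 1) /
      (1 - tt P / ((P.p1 : ℝ) / P.q1))) ≤ τ - (P.tn : ℝ) / P.td) :
    ∃ z w : List Bool, P.x <+: z ∧
      (∀ n, P.x.length < n → n ≤ z.length → PLe (tt P) F (z.take n) τ) ∧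
      w ∈ V ∧ w.length = P.K * h ∧ ∀ i < P.K * h, G (z, i, (w.getD i false).toNat) := by
  obtain ⟨⟨hV1, hV2⟩, v, hv⟩ := hW
  dsimp only at hV1 hV2 hv
  set u := P.C1 * (v + 1) with hu
  set ρ := tt P / ((P.p1 : ℝ) / P.q1) with hρ
  have hp1' : (0 : ℝ) < P.p1 := by exact_mod_cast hp1
  have hq1' : (0 : ℝ) < P.q1 := by exact_mod_cast hq1
  have hρ0 : 0 ≤ ρ := by positivity
  have hρ1 : ρ < 1 := by rw [hρ, div_lt_one (by positivity)]; exact ht1'
  obtain ⟨L, hL1, hL2⟩ := exists_code_set (fun g => g ∈ F) u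
  have hALF : ∀ g ∈ AL u L, g ∈ F := fun g hg => by
    have := mem_AL.1 hg
    exact (hL2 g this.1).1 this.2
  have hOk : Ok P u L := by
    rw [Ok_iff]
    refine ⟨fun g h1 h2 => ?_, fun r h1 h2 => hF _ hALF r h2⟩
    rw [hL2 g h1, hDF]
    exact ⟨fun h3 => ⟨h3, h2⟩, fun h3 => h3.1⟩
  obtain ⟨z, ⟨hz1, hz2⟩, w, hw, hcomp⟩ := (hv L hL1).resolve_left (not_not.2 hOk)
  rw [Safe_iff P hq htd] at hz2
  refine ⟨z, w, hz2.1, ?_, hw, hV1 w hw, hcomp⟩
  intro n h1 h2 A hA
  rw [← Finset.sum_filter_add_sum_filter_not A (fun g => g.length ≤ u)]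
  have h3 : ∑ g ∈ A.filter (fun g => g.length ≤ u), phi (tt P) (z.take n) g ≤
      (P.tn : ℝ) / P.td := by
    refine (Finset.sum_le_sum_of_subset_of_nonneg (fun g hg => ?_) fun _ _ _ =>
      phi_nonneg ht0.le _ _).trans (hz2.2 n h1 h2)
    have := mem_filter.1 hg
    exact mem_AL.2 ⟨this.2, (hL2 g this.2).2 (hA g this.1)⟩
  have h4 : ∑ g ∈ A.filter (fun g => ¬ g.length ≤ u), (tt P) ^ g.length ≤
      1 * (ρ ^ (u + 1) / (1 - ρ)) := by
    refine W_geom hρ0 hρ1 zero_le_one _ (fun g hg => ?_) fun r hr => ?_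
    · have := (mem_filter.1 hg).2
      omega
    · have hlo : P.lo ≤ r := by
        have : P.C1 * 1 ≤ u := Nat.mul_le_mul_left _ (by omega)
        omega
      have h5 := hF (A.filter (fun g => ¬ g.length ≤ u)) (fun g hg => hA g (mem_filter.1 hg).1) r hlo
      have h6 : (cnt (A.filter (fun g => ¬ g.length ≤ u)) r : ℝ) * P.p1 ^ r ≤ P.q1 ^ r := by
        exact_mod_cast h5
      have h7 : ρ ^ r = (P.q1 : ℝ) ^ r / P.p1 ^ r * (tt P) ^ r := by
        rw [hρ, ← div_pow, ← mul_pow]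
        congr 1
        field_simp
      rw [one_mul, h7]
      refine mul_le_mul_of_nonneg_right ?_ (pow_pos ht0 r).le
      rw [le_div_iff₀ (by positivity)]
      exact h6
  have h5 : ∑ g ∈ A.filter (fun g => ¬ g.length ≤ u), phi (tt P) (z.take n) g ≤
      τ - (P.tn : ℝ) / P.td := by
    have h6 : ∑ g ∈ A.filter (fun g => ¬ g.length ≤ u), phi (tt P) (z.take n) g ≤
        MM (tt P) v * ∑ g ∈ A.filter (fun g => ¬ g.length ≤ u), (tt P) ^ g.length := by
      rw [Finset.mul_sum]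
      refine Finset.sum_le_sum fun g _ => ?_
      refine (phi_le ht0 ht1 (z.take n) g).trans ?_
      refine mul_le_mul_of_nonneg_right ?_ (pow_pos ht0 _).le
      refine MM_mono ht0 ht1 ?_
      rw [List.length_take]
      omega
    refine h6.trans ((mul_le_mul_of_nonneg_left h4 (MM_nonneg ht0 _)).trans ?_)
    rw [one_mul]
    exact htail v
  linarith

/-- relaxing the condition -/
theorem relax_end {t : ℝ} (ht : 1 / 2 < t) {F : Set (List Bool)} {x z : List Bool} {τ w : ℝ}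
    (hw : w ≤ (1 - 1 / (2 * t)) / 8) (hτ : 1 / 2 < τ) (hτ1 : τ < 1)
    (hx : PLe t F x (1 / 4)) (hxz : x <+: z)
    (hz : ∀ n, x.length < n → n ≤ z.length → PLe t F (z.take n) τ)
    (hW : WLe t F w) :
    ∃ x' : List Bool, z <+: x' ∧ x.length < x'.length ∧ PLe t F x' (1 / 4) ∧
      ∀ n, x.length < n → n ≤ x'.length → PLe t F (x'.take n) τ := by
  have ht0 : 0 < t := by linarith
  have hρ0 : (0 : ℝ) ≤ 1 / (2 * t) := by positivity
  have hρ1 : 1 / (2 * t) < 1 := by
    rw [div_lt_one (by linarith)]; linarith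
  have hP : PLe t F z τ := by
    by_cases h : x.length < z.length
    · have := hz z.length h le_rfl
      rwa [List.take_length] at this
    · have h1 : x = z := hxz.eq_of_length (by
        have := hxz.length_le
        omega)
      subst h1
      exact hx.mono subset_rfl (by linarith)
  obtain ⟨i, hi⟩ := exists_small_pow hρ0 hρ1 1 (1 / 8) (by norm_num)
  obtain ⟨y, hy1, hy2, hy3⟩ := relax ht hw (by linarith : 1 / 8 ≤ τ) hP hW (i + 1)
  have hle := hxz.length_le
  refine ⟨z ++ y, List.prefix_append _ _, ?_, ?_, ?_⟩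
  · rw [List.length_append, hy1]; omega
  · refine hy2.mono subset_rfl ?_
    have h1 := hi (i + 1) (by omega)
    rw [one_mul] at h1
    have h2 : (0 : ℝ) ≤ (1 / (2 * t)) ^ (i + 1) := pow_nonneg hρ0 _
    nlinarith
  · intro n h1 h2
    rcases Nat.lt_or_ge z.length n with h3 | h3
    · have h4 : (z ++ y).take n = z ++ y.take (n - z.length) := by
        rw [List.take_append, List.take_of_length_le (by omega)]
      rw [h4]
      refine hy3 _ ?_
      rw [List.length_append, hy1] at h2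
      omega
    · rw [List.take_append_of_le_length h3]
      exact hz n h1 h3

end Pool.Agent.W968.SCx
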