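import Mathlib
import Pool.Agent.W968.SCx.Win

set_option autoImplicit false

namespace Pool.Agent.W968.SCx

open Filter

theorem ev_short {s : ℝ} (hs0 : 0 < s) (hs1 : s ≤ 1) {K e : ℕ} (h1 : (1 / s) ^ K * 2 < 2 ^ e) :
    ∀ᶠ h : ℕ in atTop, (((K * h : ℕ) : ℝ) + 2) ^ 2 * (1 / s) ^ (K * h) < 2 ^ (e * h) / (8 * 2 ^ h) := by
  have hinv : (1 : ℝ) ≤ 1 / s := by rw [le_div_iff₀ hs0, one_mul]; exact hs1
  set r : ℝ := (1 / s) ^ K * 2 / 2 ^ e with hr
  have hr0 : 0 ≤ r := by positivity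
  have hr1 : r < 1 := by rw [hr, div_lt_one (by positivity)]; exact h1
  have h2 : Tendsto (fun h : ℕ => (8 * ((K : ℝ) + 2) ^ 2) * ((h : ℝ) ^ 2 * r ^ h)) atTop
      (nhds ((8 * ((K : ℝ) + 2) ^ 2) * 0)) :=
    (tendsto_pow_const_mul_const_pow_of_lt_one 2 hr0 hr1).const_mul _
  rw [mul_zero] at h2
  filter_upwards [h2.eventually (gt_mem_nhds zero_lt_one), eventually_ge_atTop 1] with h h3 h4
  rw [lt_div_iff₀ (by positivity)]
  have h5 : (1 : ℝ) ≤ h := by exact_mod_cast h4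
  have h6 : r ^ h * 2 ^ (e * h) = (1 / s) ^ (K * h) * 2 ^ h := by
    rw [hr, div_pow, mul_pow, ← pow_mul, ← pow_mul]
    field_simp
  have h7 : (((K * h : ℕ) : ℝ) + 2) ≤ (K + 2) * h := by
    push_cast
    nlinarith
  have h8 : (((K * h : ℕ) : ℝ) + 2) ^ 2 ≤ (K + 2) ^ 2 * h ^ 2 := by
    rw [← mul_pow]
    exact pow_le_pow_left₀ (by positivity) h7 2
  have h9 : (0 : ℝ) < (1 / s) ^ (K * h) * 2 ^ h := by positivity
  calc (((K * h : ℕ) : ℝ) + 2) ^ 2 * (1 / s) ^ (K * h) * (8 * 2 ^ h)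
      = (((K * h : ℕ) : ℝ) + 2) ^ 2 * (8 * ((1 / s) ^ (K * h) * 2 ^ h)) := by ring
    _ ≤ ((K + 2) ^ 2 * h ^ 2) * (8 * ((1 / s) ^ (K * h) * 2 ^ h)) :=
        mul_le_mul_of_nonneg_right h8 (by positivity)
    _ = (8 * ((K : ℝ) + 2) ^ 2 * ((h : ℝ) ^ 2 * r ^ h)) * 2 ^ (e * h) := by
        rw [← h6]; ring
    _ < 1 * 2 ^ (e * h) := mul_lt_mul_of_pos_right h3 (by positivity)
    _ = 2 ^ (e * h) := one_mul _

theorem ev_long {ρ : ℝ} (hρ0 : 0 ≤ ρ) {K d : ℕ} (h1 : 2 ^ d * ρ ^ K < 1) (c ε : ℝ) (hε : 0 < ε) :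
    ∀ᶠ h : ℕ in atTop, c * ((4 * 2 ^ (d * h) * h : ℕ) : ℝ) * ρ ^ (K * h) ≤ ε := by
  have h2 : Tendsto (fun h : ℕ => (4 * c) * ((h : ℝ) ^ 1 * (2 ^ d * ρ ^ K) ^ h)) atTop
      (nhds ((4 * c) * 0)) :=
    (tendsto_pow_const_mul_const_pow_of_lt_one 1 (by positivity) h1).const_mul _
  rw [mul_zero] at h2
  filter_upwards [h2.eventually (ge_mem_nhds hε)] with h h3
  refine le_trans (le_of_eq ?_) h3
  push_cast
  rw [mul_pow, ← pow_mul, ← pow_mul]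
  ring

theorem exists_C1 {t ρ η : ℝ} (ht : 0 < t) (ht1 : t ≤ 1) (hρ0 : 0 ≤ ρ) (hρ1 : ρ < 1) (hη : 0 < η)
    (lo : ℕ) : ∃ C1 ≥ lo, ∀ v : ℕ, MM t v * (ρ ^ (C1 * (v + 1) + 1) / (1 - ρ)) ≤ η := by
  have hρ' : 0 < 1 - ρ := by linarith
  set η' := min 1 (η * (1 - ρ)) with hη'
  have hη'0 : 0 < η' := lt_min one_pos (by positivity)
  have hη'1 : η' ≤ 1 := min_le_left _ _
  obtain ⟨n, hn⟩ := exists_small_pow hρ0 hρ1 1 (t / 2 * η') (by positivity)
  refine ⟨max n lo, le_max_right _ _, fun v => ?_⟩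
  have h1 := hn (max n lo) (le_max_left _ _)
  rw [one_mul] at h1
  set c := max n lo
  have h2 : ρ ^ (c * (v + 1) + 1) ≤ (t / 2) ^ (v + 1) * (η * (1 - ρ)) := by
    calc ρ ^ (c * (v + 1) + 1) ≤ ρ ^ (c * (v + 1)) := pow_le_pow_of_le_one hρ0 hρ1.le (by omega)
      _ = (ρ ^ c) ^ (v + 1) := by rw [pow_mul]
      _ ≤ (t / 2 * η') ^ (v + 1) := pow_le_pow_left₀ (pow_nonneg hρ0 _) h1 _
      _ = (t / 2) ^ (v + 1) * η' ^ (v + 1) := mul_pow _ _ _
      _ ≤ (t / 2) ^ (v + 1) * η' := by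
          refine mul_le_mul_of_nonneg_left ?_ (by positivity)
          have := pow_le_pow_of_le_one hη'0.le hη'1 (show 1 ≤ v + 1 by omega)
          simpa using this
      _ ≤ (t / 2) ^ (v + 1) * (η * (1 - ρ)) :=
          mul_le_mul_of_nonneg_left (min_le_right _ _) (by positivity)
  have h3 : ρ ^ (c * (v + 1) + 1) / (1 - ρ) ≤ (t / 2) ^ (v + 1) * η := by
    rw [div_le_iff₀ hρ']
    linarith
  have h4 : ((v + 1 : ℕ) : ℝ) ≤ 2 ^ (v + 1) := by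
    exact_mod_cast (Nat.lt_two_pow_self (n := v + 1)).le
  calc MM t v * (ρ ^ (c * (v + 1) + 1) / (1 - ρ)) ≤ MM t v * ((t / 2) ^ (v + 1) * η) :=
        mul_le_mul_of_nonneg_left h3 (MM_nonneg ht _)
    _ = ((v + 1 : ℕ) : ℝ) * (1 / 2 ^ (v + 1)) * (t * η) := by
        unfold MM
        rw [div_pow, div_pow, one_pow, pow_succ t v]
        have : t ^ v ≠ 0 := by positivity
        field_simp
    _ ≤ 1 * (t * η) := by
        refine mul_le_mul_of_nonneg_right ?_ (by positivity)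
        rw [mul_one_div, div_le_one (by positivity)]
        exact h4
    _ ≤ η := by nlinarith

theorem ev_compl {β : ℝ} {K e : ℕ} (h1 : ((e : ℝ) + 1) < β * K) (C c : ℝ) :
    ∀ᶠ h : ℕ in atTop, ((e : ℝ) + 1) * h + C < β * ((K * h : ℕ) : ℝ) - c := by
  have h2 : 0 < β * K - (e + 1) := by linarith
  have h3 : Tendsto (fun h : ℕ => (β * K - (e + 1)) * (h : ℝ)) atTop atTop :=
    tendsto_natCast_atTop_atTop.const_mul_atTop h2
  filter_upwards [h3.eventually (eventually_gt_atTop (C + c))] with h h4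
  push_cast
  linarith

theorem exists_params {α β : ℝ} (hα : 0 < α) (hαβ : α < β) (hβ : β < 1) :
    ∃ (s : ℝ) (K e p q : ℕ), 1 / 2 < s ∧ s < (2 : ℝ) ^ (-α) ∧ s < 1 ∧ e ≤ K ∧
      (1 / s) ^ K * 2 < 2 ^ e ∧ ((e : ℝ) + 1) < β * K ∧ 0 < q ∧
      1 / 2 < (p : ℝ) / q ∧ (p : ℝ) / q < s ∧ 2 ^ (K - e) * ((p : ℝ) / q) ^ K < s ^ K := by
  set σ := (α + β) / 2 with hσ
  have hσα : α < σ := by rw [hσ]; linarith
  have hσβ : σ < β := by rw [hσ]; linarith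
  have hσ0 : 0 < σ := by linarith
  obtain ⟨K, hK⟩ := exists_nat_gt (3 / (β - σ))
  have hK' : 3 < K * (β - σ) := by rwa [div_lt_iff₀ (by linarith)] at hK
  have hKpos : (0 : ℝ) < K := by
    have : 0 < 3 / (β - σ) := div_pos (by norm_num) (by linarith)
    linarith
  obtain ⟨e, he⟩ : ∃ e : ℕ, e = ⌊(K : ℝ) * σ⌋₊ + 2 := ⟨_, rfl⟩
  have he1 : (K : ℝ) * σ + 1 < e := by
    have := Nat.lt_floor_add_one ((K : ℝ) * σ)
    rw [he]
    push_cast
    linarith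
  have he2 : (e : ℝ) ≤ K * σ + 2 := by
    have := Nat.floor_le (show 0 ≤ (K : ℝ) * σ by positivity)
    rw [he]
    push_cast
    linarith
  have he3 : (e : ℝ) + 1 < β * K := by nlinarith
  have heK : e ≤ K := by
    have h1 : (e : ℝ) < K := by nlinarith
    exact_mod_cast h1.le
  set s := (2 : ℝ) ^ (-σ) with hs
  have hs0 : 0 < s := Real.rpow_pos_of_pos two_pos _
  have hs1 : s < 1 := Real.rpow_lt_one_of_one_lt_of_neg one_lt_two (by linarith)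
  have hshalf : 1 / 2 < s := by
    have h1 : (1 / 2 : ℝ) = (2 : ℝ) ^ (-1 : ℝ) := by
      rw [Real.rpow_neg_one]; norm_num
    rw [h1, hs]
    exact Real.rpow_lt_rpow_of_exponent_lt one_lt_two (by linarith)
  have hsα : s < (2 : ℝ) ^ (-α) := Real.rpow_lt_rpow_of_exponent_lt one_lt_two (by linarith)
  have hsK : (1 / s) ^ K * 2 < 2 ^ e := by
    have h1 : 1 / s = (2 : ℝ) ^ σ := by
      rw [hs, Real.rpow_neg two_pos.le, one_div, inv_inv]
    have h2 : (1 / s) ^ K = (2 : ℝ) ^ (σ * K) := by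
      rw [h1, Real.rpow_mul two_pos.le, Real.rpow_natCast]
    have h3 : (1 / s) ^ K * 2 = (2 : ℝ) ^ (σ * K + 1) := by
      rw [h2, Real.rpow_add two_pos, Real.rpow_one]
    have h4 : (2 : ℝ) ^ e = (2 : ℝ) ^ (e : ℝ) := (Real.rpow_natCast 2 e).symm
    rw [h3, h4]
    exact Real.rpow_lt_rpow_of_exponent_lt one_lt_two (by linarith)
  -- the rational
  have hcont : ContinuousAt (fun y : ℝ => 2 ^ (K - e) * y ^ K) (1 / 2) := by fun_prop
  have hval : (2 : ℝ) ^ (K - e) * (1 / 2) ^ K < s ^ K := by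
    have h1 : (2 : ℝ) ^ (K - e) * (1 / 2) ^ K = 1 / 2 ^ e := by
      have h2 : (2 : ℝ) ^ K = 2 ^ (K - e) * 2 ^ e := by
        rw [← pow_add]; congr 1; omega
      rw [one_div, inv_pow, h2]
      field_simp
    rw [h1, div_lt_iff₀ (by positivity)]
    have h3 : (1 / s) ^ K * s ^ K = 1 := by
      rw [← mul_pow, one_div_mul_cancel hs0.ne', one_pow]
    have h4 : 0 < s ^ K := by positivity
    nlinarith
  have hev : ∀ᶠ y in nhds (1 / 2 : ℝ), 2 ^ (K - e) * y ^ K < s ^ K :=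
    hcont.eventually (gt_mem_nhds hval)
  obtain ⟨ε, hε, hball⟩ := Metric.eventually_nhds_iff.1 hev
  obtain ⟨y, hy1, hy2⟩ := exists_rat_btwn (show (1 / 2 : ℝ) < min s (1 / 2 + ε) from
    lt_min hshalf (by linarith))
  have hy0 : (0 : ℝ) < y := by linarith
  have hy0' : 0 < y := by exact_mod_cast hy0
  have hnum : (y.num.toNat : ℤ) = y.num := Int.toNat_of_nonneg (Rat.num_nonneg.2 hy0'.le)
  have hyeq : ((y.num.toNat : ℕ) : ℝ) / (y.den : ℕ) = (y : ℝ) := by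
    have h1 : (((y.num.toNat : ℕ) : ℤ) : ℝ) = ((y.num : ℤ) : ℝ) := congrArg _ hnum
    rw [Int.cast_natCast] at h1
    rw [h1]
    exact (Rat.cast_def y).symm
  refine ⟨s, K, e, y.num.toNat, y.den, hshalf, hsα, hs1, heK, hsK, he3, y.pos, ?_, ?_, ?_⟩
  · rw [hyeq]; exact hy1
  · rw [hyeq]; exact hy2.trans_le (min_le_left _ _)
  · rw [hyeq]
    refine hball ?_
    rw [Real.dist_eq, abs_of_pos (by linarith)]
    have := hy2.trans_le (min_le_right _ _)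
    linarith

/-- natural number numerators and denominators between two positive reals -/
theorem exists_frac {a b : ℝ} (ha : 0 ≤ a) (hab : a < b) :
    ∃ p q : ℕ, 0 < p ∧ 0 < q ∧ a < (p : ℝ) / q ∧ (p : ℝ) / q < b := by
  obtain ⟨y, hy1, hy2⟩ := exists_rat_btwn hab
  have hy0 : (0 : ℝ) < y := lt_of_le_of_lt ha hy1
  have hy0' : 0 < y := by exact_mod_cast hy0
  have hnum : (y.num.toNat : ℤ) = y.num := Int.toNat_of_nonneg (Rat.num_nonneg.2 hy0'.le)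
  have hyeq : ((y.num.toNat : ℕ) : ℝ) / (y.den : ℕ) = (y : ℝ) := by
    have h1 : (((y.num.toNat : ℕ) : ℤ) : ℝ) = ((y.num : ℤ) : ℝ) := congrArg _ hnum
    rw [Int.cast_natCast] at h1
    rw [h1]
    exact (Rat.cast_def y).symm
  refine ⟨y.num.toNat, y.den, ?_, y.pos, by rw [hyeq]; exact hy1, by rw [hyeq]; exact hy2⟩
  have := Rat.num_pos.2 hy0'
  omega

end Pool.Agent.W968.SCx
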