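import Mathlib
import Pool.Agent.Helper227.SOne
import Pool.Agent.Helper227.KC2
import Pool.Agent.Helper227.Mach

set_option autoImplicit false

namespace Pool.Agent.W968.SCx

open Encodable Pool.Agent.Helper227 Finset Classical

/-- the list of strings coded by `n` -/
def dV (n : ℕ) : List (List Bool) := (decode (α := List (List Bool)) n.unpair.1).getD []

theorem pr_dV : Primrec dV :=
  Primrec.option_getD.comp (Primrec.decode.comp (Primrec.fst.comp Primrec.unpair))
    (Primrec.const [])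

variable (q : ℕ × List (List Bool) → ℕ → Prop)

def hit (h n : ℕ) : Prop := q (h, dV n) n.unpair.2

def first (h n : ℕ) : Prop := hit q h n ∧ ∀ n' < n, ¬ hit q h n'

variable {q}

theorem pr_hit (hq : PrimrecRel q) : PrimrecRel (hit q) := by
  unfold hit
  exact hq.comp (Primrec.fst.pair (pr_dV.comp Primrec.snd))
    (Primrec.snd.comp (Primrec.unpair.comp Primrec.snd))

theorem pr_first (hq : PrimrecRel q) : PrimrecRel (first q) := by
  unfold first
  refine PrimrecPred.and (pr_hit hq) ?_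
  refine PP.all_lt (α := ℕ × ℕ) (f := fun a => a.2) (p := fun a n' => ¬ hit q a.1 n') ?_ Primrec.snd
  exact PrimrecPred.not ((pr_hit hq).comp (Primrec.fst.comp Primrec.fst) Primrec.snd)

variable (q)

noncomputable def req (e m : ℕ) : Option (ℕ × List Bool) :=
  if first q m.unpair.1.unpair.1 m.unpair.1.unpair.2 then
    ((dV m.unpair.1.unpair.2)[m.unpair.2]?).map
      (fun w => ((e + 1) * m.unpair.1.unpair.1 + 1, w))
  else none

variable {q}

theorem pr_req (hq : PrimrecRel q) (e : ℕ) : Primrec (req q e) := by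
  have e1 : Primrec (fun m : ℕ => m.unpair.1.unpair) :=
    Primrec.unpair.comp (Primrec.fst.comp Primrec.unpair)
  unfold req
  refine Primrec.ite ?_ ?_ (Primrec.const none)
  · exact (pr_first hq).comp (Primrec.fst.comp e1) (Primrec.snd.comp e1)
  · refine Primrec.option_map (f := fun m : ℕ => (dV m.unpair.1.unpair.2)[m.unpair.2]?)
      (g := fun m w => ((e + 1) * m.unpair.1.unpair.1 + 1, w)) ?_ ?_
    · exact Primrec.list_getElem?.comp (pr_dV.comp (Primrec.snd.comp e1))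
        (Primrec.snd.comp Primrec.unpair)
    · have e2 : Primrec (fun a : ℕ × List Bool => (e + 1) * a.1.unpair.1.unpair.1 + 1) :=
        Primrec.succ.comp (Primrec.nat_mul.comp (Primrec.const (e + 1))
          (Primrec.fst.comp (e1.comp Primrec.fst)))
      exact (Primrec.pair e2 Primrec.snd).to₂

theorem req_some {e m : ℕ} {p : ℕ × List Bool} (h : req q e m = some p) :
    first q m.unpair.1.unpair.1 m.unpair.1.unpair.2 ∧
    m.unpair.2 < (dV m.unpair.1.unpair.2).length ∧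
      p.1 = (e + 1) * m.unpair.1.unpair.1 + 1 := by
  unfold req at h
  split_ifs at h with h1
  refine ⟨h1, ?_⟩
  rw [Option.map_eq_some_iff] at h
  obtain ⟨w, hw, rfl⟩ := h
  refine ⟨?_, rfl⟩
  by_contra hc
  push Not at hc
  rw [List.getElem?_eq_none hc] at hw
  cases hw

theorem first_unique {h n n' : ℕ} (h1 : first q h n) (h2 : first q h n') : n = n' := by
  rcases Nat.lt_trichotomy n n' with h3 | h3 | h3
  · exact absurd h1.1 (h2.2 n h3)
  · exact h3
  · exact absurd h2.1 (h1.2 n' h3)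

theorem geo_half (M : ℕ) : ∑ h ∈ range M, (1 / 2 : ℝ) ^ (h + 1) = 1 - (1 / 2) ^ M := by
  induction M with
  | zero => simp
  | succ M ih => rw [Finset.sum_range_succ, ih, pow_succ]; ring

theorem req_bound (e : ℕ) (hlen : ∀ h n, hit q h n → (dV n).length ≤ 2 ^ (e * h)) (M : ℕ) :
    ∑ m ∈ range M, KC.wr (req q e) m ≤ 1 := by
  set S := (range M).filter fun m => (req q e m).isSome with hS
  have h1 : ∑ m ∈ range M, KC.wr (req q e) m = ∑ m ∈ S, KC.wr (req q e) m := by
    rw [hS, Finset.sum_filter]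
    refine Finset.sum_congr rfl fun m _ => ?_
    split_ifs with h
    · rfl
    · have : req q e m = none := by
        rw [Option.not_isSome_iff_eq_none] at h
        exact h
      simp [KC.wr, this]
  have hinfo : ∀ m ∈ S, first q m.unpair.1.unpair.1 m.unpair.1.unpair.2 ∧
      m.unpair.2 < 2 ^ (e * m.unpair.1.unpair.1) ∧
      KC.wr (req q e) m = (1 / 2) ^ ((e + 1) * m.unpair.1.unpair.1 + 1) ∧ m < M := by
    intro m hm
    have hm' := mem_filter.1 hm
    obtain ⟨p, hp⟩ := Option.isSome_iff_exists.1 hm'.2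
    obtain ⟨a1, a2, a3⟩ := req_some hp
    refine ⟨a1, lt_of_lt_of_le a2 (hlen _ _ a1.1), ?_, mem_range.1 hm'.1⟩
    unfold KC.wr
    rw [hp]
    simp [a3]
  rw [h1]
  have h2 : ∑ m ∈ S, KC.wr (req q e) m ≤
      ∑ p ∈ (range M).sigma (fun h => range (2 ^ (e * h))), (1 / 2 : ℝ) ^ ((e + 1) * p.1 + 1) := by
    have h3 : ∑ m ∈ S, KC.wr (req q e) m = ∑ m ∈ S, (1 / 2 : ℝ) ^ ((e + 1) * m.unpair.1.unpair.1 + 1) :=
      Finset.sum_congr rfl fun m hm => (hinfo m hm).2.2.1
    rw [h3]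
    have hinj : Set.InjOn (fun m : ℕ => (⟨m.unpair.1.unpair.1, m.unpair.2⟩ : (_ : ℕ) × ℕ)) S := by
      intro a ha b hb hab
      simp only [Sigma.mk.injEq, heq_eq_eq] at hab
      have h4 := (hinfo a ha).1
      have h5 := (hinfo b hb).1
      rw [hab.1] at h4
      have h6 := first_unique h4 h5
      have h7 : a.unpair.1 = b.unpair.1 := by
        rw [← Nat.pair_unpair a.unpair.1, ← Nat.pair_unpair b.unpair.1, hab.1, h6]
      rw [← Nat.pair_unpair a, ← Nat.pair_unpair b, h7, hab.2]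
    have h4 : ∑ m ∈ S, (1 / 2 : ℝ) ^ ((e + 1) * m.unpair.1.unpair.1 + 1) =
        ∑ p ∈ S.image (fun m : ℕ => (⟨m.unpair.1.unpair.1, m.unpair.2⟩ : (_ : ℕ) × ℕ)),
          (1 / 2 : ℝ) ^ ((e + 1) * p.1 + 1) :=
      (Finset.sum_image (f := fun p : (_ : ℕ) × ℕ => (1 / 2 : ℝ) ^ ((e + 1) * p.1 + 1)) hinj).symm
    rw [h4]
    refine Finset.sum_le_sum_of_subset_of_nonneg ?_ fun _ _ _ => by positivity
    intro p hp
    obtain ⟨m, hm, rfl⟩ := mem_image.1 hp
    have h5 := hinfo m hm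
    rw [Finset.mem_sigma]
    refine ⟨mem_range.2 ?_, mem_range.2 h5.2.1⟩
    exact lt_of_le_of_lt ((Nat.unpair_left_le _).trans (Nat.unpair_left_le _)) h5.2.2.2
  refine h2.trans ?_
  rw [Finset.sum_sigma]
  have h3 : ∀ h ∈ range M, ∑ i ∈ range (2 ^ (e * h)), (1 / 2 : ℝ) ^ ((e + 1) * h + 1) =
      (1 / 2) ^ (h + 1) := by
    intro h _
    rw [Finset.sum_const, nsmul_eq_mul, card_range]
    push_cast
    have : (1 / 2 : ℝ) ^ ((e + 1) * h + 1) = (1 / 2) ^ (e * h) * (1 / 2) ^ (h + 1) := by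
      rw [← pow_add]
      congr 1
      ring
    rw [this, ← mul_assoc, ← mul_pow]
    norm_num
  refine (Finset.sum_congr rfl h3).le.trans ?_
  rw [geo_half]
  have : (0 : ℝ) ≤ (1 / 2) ^ M := by positivity
  linarith

/-- Selecting simple witnesses. -/
theorem select {U : List Bool →. List Bool} (hU : IsUniversal U) (e : ℕ)
    {W : ℕ × List (List Bool) → Prop} (hW : S1 W)
    (hlen : ∀ h V, W (h, V) → V.length ≤ 2 ^ (e * h)) :
    ∃ C : ℕ, ∀ h, (∃ V, W (h, V)) → ∃ V, W (h, V) ∧ ∀ w ∈ V, KU U w ≤ (e + 1) * h + C := by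
  obtain ⟨q, hq, hm, he⟩ := hW
  have hlen' : ∀ h n, hit q h n → (dV n).length ≤ 2 ^ (e * h) := fun h n hn =>
    hlen h _ ((he _).2 ⟨_, hn⟩)
  obtain ⟨M, hM1, hM2, hM3⟩ := KC.kraft_chaitin (pr_req hq e) (req_bound e hlen')
  obtain ⟨C, hC⟩ := hU.2 M ⟨hM1, hM2⟩
  refine ⟨1 + C, fun h hex => ?_⟩
  obtain ⟨V, hV⟩ := hex
  obtain ⟨t, ht⟩ := (he _).1 hV
  have hhit : ∃ n, hit q h n := by
    refine ⟨Nat.pair (encode V) t, ?_⟩
    unfold hit dV
    rw [Nat.unpair_pair]
    simpa using ht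
  have hfind := Nat.find_spec hhit
  set n := Nat.find hhit with hn
  have hfirst : first q h n := ⟨hfind, fun n' hn' => Nat.find_min hhit hn'⟩
  refine ⟨dV n, (he _).2 ⟨_, hfind⟩, fun w hw => ?_⟩
  obtain ⟨i, hi, hiw⟩ := List.getElem_of_mem hw
  have hr : req q e (Nat.pair (Nat.pair h n) i) = some ((e + 1) * h + 1, w) := by
    unfold req
    simp only [Nat.unpair_pair]
    rw [if_pos hfirst, List.getElem?_eq_getElem hi, hiw]
    rfl
  obtain ⟨τ, hτ1, hτ2⟩ := hM3 _ _ _ hr
  obtain ⟨τ', h1, h2⟩ := hC τ w hτ2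
  have h3 := KU_le h2
  omega

end Pool.Agent.W968.SCx
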