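import Mathlib
import Pool.Agent.W968.SCx.Num
import Pool.Agent.W968.SCx.Count
import Pool.Agent.W968.SCx.Select

set_option autoImplicit false

namespace Pool.Agent.W968.SCx

open Pool.Agent.Helper227 Pool.Agent.H561R3 Finset Classical Filter

/-- the invariant of the construction -/
def Good (t s : ℝ) (F : Set (List Bool)) (x : List Bool) (τ : ℝ) : Prop :=
  PLe t F x (1 / 4) ∧ (∃ w, w < (1 - 1 / (2 * t)) / 8 ∧ 0 ≤ w ∧ WLe t F w) ∧
    (∃ tF, s < tF ∧ ∃ C, 0 ≤ C ∧ Typ tF C F) ∧ 1 / 2 < τ ∧ τ < 1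

/-- weight of the sets of the opponent -/
theorem Big_W (P : Par) {m u T k : ℕ} {A : Finset (List Bool)} (hp1 : 0 < P.p1)
    (hq1 : 0 < P.q1) (ht0 : 0 < tt P) (ht1' : tt P < (P.p1 : ℝ) / P.q1)
    (hA : Big P m u T k A) :
    ∑ g ∈ A, (tt P) ^ g.length ≤
      k * ((tt P / ((P.p1 : ℝ) / P.q1)) ^ P.lo / (1 - tt P / ((P.p1 : ℝ) / P.q1))) +
      (k * T : ℕ) * ((tt P / ((P.p1 : ℝ) / P.q1)) ^ m / (1 - tt P / ((P.p1 : ℝ) / P.q1))) := by
  have hp1' : (0 : ℝ) < P.p1 := by exact_mod_cast hp1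
  have hq1' : (0 : ℝ) < P.q1 := by exact_mod_cast hq1
  set ρ := tt P / ((P.p1 : ℝ) / P.q1) with hρ
  have hρ0 : 0 ≤ ρ := by positivity
  have hρ1 : ρ < 1 := by rw [hρ, div_lt_one (by positivity)]; exact ht1'
  have hcnt : ∀ r, (cnt A r : ℝ) * (tt P) ^ r ≤ ((if r ≤ m then k else k * T : ℕ) : ℝ) * ρ ^ r := by
    intro r
    have h1 := hA.2 r
    have h2 : (cnt A r : ℝ) * (P.p1 : ℝ) ^ r ≤ ((if r ≤ m then k else k * T : ℕ) : ℝ) * P.q1 ^ r := by
      exact_mod_cast h1
    have h7 : ρ ^ r = (P.q1 : ℝ) ^ r / P.p1 ^ r * (tt P) ^ r := by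
      rw [hρ, ← div_pow, ← mul_pow]
      congr 1
      field_simp
    rw [h7, ← mul_assoc]
    refine mul_le_mul_of_nonneg_right ?_ (pow_pos ht0 r).le
    rw [← mul_div_assoc, le_div_iff₀ (by positivity)]
    exact h2
  rw [← Finset.sum_filter_add_sum_filter_not A (fun g => g.length ≤ m)]
  refine add_le_add ?_ ?_
  · refine W_geom hρ0 hρ1 (Nat.cast_nonneg k) _ (fun g hg => (hA.1 g (mem_filter.1 hg).1).1)
      fun r _ => ?_
    by_cases hr : r ≤ m
    · have h1 := hcnt r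
      rw [if_pos hr] at h1
      refine le_trans (mul_le_mul_of_nonneg_right ?_ (pow_pos ht0 r).le) h1
      exact_mod_cast cnt_mono (Finset.filter_subset _ _) r
    · have h1 : cnt (A.filter fun g => g.length ≤ m) r = 0 := cnt_eq_zero fun g hg => by
        have := (mem_filter.1 hg).2
        omega
      rw [h1, Nat.cast_zero, zero_mul]
      positivity
  · refine W_geom hρ0 hρ1 (Nat.cast_nonneg _) _ (fun g hg => ?_) fun r _ => ?_
    · have := (mem_filter.1 hg).2
      omega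
    · by_cases hr : r ≤ m
      · have h1 : cnt (A.filter fun g => ¬ g.length ≤ m) r = 0 := cnt_eq_zero fun g hg => by
          have := (mem_filter.1 hg).2
          omega
        rw [h1, Nat.cast_zero, zero_mul]
        positivity
      · have h1 := hcnt r
        rw [if_neg hr] at h1
        refine le_trans (mul_le_mul_of_nonneg_right ?_ (pow_pos ht0 r).le) h1
        exact_mod_cast cnt_mono (Finset.filter_subset _ _) r

theorem stage {U : List Bool →. List Bool} (hU : IsUniversal U) {β s : ℝ} {K e p q : ℕ}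
    (hs : 1 / 2 < s) (hs1 : s < 1) (heK : e ≤ K) (hsK : (1 / s) ^ K * 2 < 2 ^ e)
    (heβ : ((e : ℝ) + 1) < β * K) (hq : 0 < q) (ht : 1 / 2 < (p : ℝ) / q) (hts : (p : ℝ) / q < s)
    (hKt : 2 ^ (K - e) * ((p : ℝ) / q) ^ K < s ^ K)
    {G : List Bool × ℕ × ℕ → Prop} (hGS : S1 G)
    (hG : ∀ σ τ n m, σ <+: τ → G (σ, n, m) → G (τ, n, m)) (c : ℕ)
    {F : Set (List Bool)} {x : List Bool} {τ : ℝ} (hgood : Good ((p : ℝ) / q) s F x τ) :
    ∃ (F' : Set (List Bool)) (x' : List Bool) (τ' : ℝ), Good ((p : ℝ) / q) s F' x' τ' ∧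
      F ⊆ F' ∧ x <+: x' ∧ x.length < x'.length ∧ τ' ≤ τ ∧
      (∀ n, x.length < n → n ≤ x'.length → PLe ((p : ℝ) / q) F (x'.take n) τ) ∧
      ((∃ w : List Bool, (∀ i < w.length, G (x', i, (w.getD i false).toNat)) ∧
          (KU U w : ℝ) < β * w.length - c) ∨
        (∃ m : ℕ, ∀ X : ℕ → Bool, pre X x'.length = x' →
          (∀ n > x'.length, PLe ((p : ℝ) / q) F' (pre X n) τ') →
          ¬ ∃ w : List Bool, w.length = m ∧
            ∀ i < m, ∃ n, G (pre X n, i, (w.getD i false).toNat))) := by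
  obtain ⟨hPx, ⟨w, hw1, hw0, hW⟩, ⟨tF, htF, C, hC0, hTyp⟩, hτ, hτ1⟩ := hgood
  set t := (p : ℝ) / q with htdef
  have ht0 : 0 < t := by linarith
  have ht1 : t ≤ 1 := by linarith
  have hs0 : 0 < s := by linarith
  -- constants
  obtain ⟨p1, q1, hp1, hq1, hst1, ht1F⟩ := exists_frac hs0.le (lt_min htF hs1)
  set t1 := (p1 : ℝ) / q1 with ht1def
  have ht1tF : t1 < tF := ht1F.trans_le (min_le_left _ _)
  have ht10 : 0 < t1 := by linarith
  have htt1 : t < t1 := by linarith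
  have hp1' : (0 : ℝ) < p1 := by exact_mod_cast hp1
  have hq1' : (0 : ℝ) < q1 := by exact_mod_cast hq1
  obtain ⟨τ', hτ'⟩ : ∃ τ', τ' = (1 / 2 + τ) / 2 := ⟨_, rfl⟩
  have hτ'1 : 1 / 2 < τ' := by rw [hτ']; linarith
  have hτ'2 : τ' < τ := by rw [hτ']; linarith
  obtain ⟨tn, td, htn, htd, hθ1, hθ2⟩ := exists_frac (show 0 ≤ τ' by linarith) hτ'2
  set ρ := t / t1 with hρ
  have hρ0 : 0 ≤ ρ := by positivity
  have hρ1 : ρ < 1 := by rw [hρ, div_lt_one ht10]; exact htt1
  have hρ' : 0 < 1 - ρ := by linarith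
  set wm := (1 - 1 / (2 * t)) / 8 with hwm
  have hwm0 : 0 < wm := lt_of_le_of_lt hw0 hw1
  obtain ⟨δ, hδ⟩ : ∃ δ, δ = min ((wm - w) / 2) (wm / (MM t x.length + 1)) := ⟨_, rfl⟩
  have hMM := MM_nonneg ht0 x.length
  have hδ0 : 0 < δ := by
    rw [hδ]
    refine lt_min (by linarith) (by positivity)
  have hδw : w + δ < wm := by
    have : δ ≤ (wm - w) / 2 := by rw [hδ]; exact min_le_left _ _
    linarith
  have hδM : MM t x.length * δ ≤ wm := by
    have h1 : δ ≤ wm / (MM t x.length + 1) := by rw [hδ]; exact min_le_right _ _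
    have h2 : MM t x.length * δ ≤ MM t x.length * (wm / (MM t x.length + 1)) :=
      mul_le_mul_of_nonneg_left h1 hMM
    refine h2.trans ?_
    rw [← mul_div_assoc, div_le_iff₀ (by positivity)]
    nlinarith
  obtain ⟨lo1, hlo1⟩ := exists_small_pow hρ0 hρ1 (((K : ℝ) + 1) / (1 - ρ)) (δ / 2) (by linarith)
  obtain ⟨lo2, hlo2⟩ := exists_small_pow (ρ := t1 / tF)
    (div_nonneg ht10.le (by linarith))
    (by rw [div_lt_one (by linarith)]; exact ht1tF) C 1 one_pos
  obtain ⟨lo, hlo⟩ : ∃ lo, lo = max (max lo1 lo2) 1 := ⟨_, rfl⟩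
  have hlo11 : lo1 ≤ lo := by omega
  have hlo22 : lo2 ≤ lo := by omega
  have hlo0 : 1 ≤ lo := by omega
  obtain ⟨D, hD⟩ : ∃ D : List (List Bool), ∀ g, g ∈ D ↔ g ∈ F ∧ g.length < lo := by
    refine ⟨((upTo lo).toFinset.filter fun g => g ∈ F ∧ g.length < lo).toList, fun g => ?_⟩
    simp only [Finset.mem_toList, mem_filter, List.mem_toFinset, mem_upTo]
    constructor
    · exact fun h => h.2
    · intro h; exact ⟨by omega, h⟩
  obtain ⟨C1, hC1lo, hC1⟩ := exists_C1 ht0 ht1 hρ0 hρ1 (show 0 < τ - (tn : ℝ) / td by linarith) lo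
  let P : Par := ⟨p, q, p1, q1, lo, C1, tn, td, K, e, D, x⟩
  have hcntF : CntF P F := by
    intro A hA r hr
    have h1 := hTyp A hA r
    have h2 := hlo2 r (hlo22.trans hr)
    have htF0 : 0 < tF := by linarith
    have h3 : (cnt A r : ℝ) * t1 ^ r ≤ 1 := by
      calc (cnt A r : ℝ) * t1 ^ r ≤ C * (1 / tF) ^ r * t1 ^ r :=
            mul_le_mul_of_nonneg_right h1 (by positivity)
        _ = C * (t1 / tF) ^ r := by rw [div_pow, div_pow, one_pow]; ring
        _ ≤ 1 := h2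
    have h4 : (cnt A r : ℝ) * p1 ^ r ≤ q1 ^ r := by
      rw [ht1def, div_pow, ← mul_div_assoc, div_le_one (by positivity)] at h3
      exact h3
    show cnt A r * p1 ^ r ≤ q1 ^ r
    exact_mod_cast h4
  have hρK : 2 ^ (K - e) * ρ ^ K < 1 := by
    rw [hρ, div_pow, ← mul_div_assoc, div_lt_one (by positivity)]
    exact hKt.trans_le (pow_le_pow_left₀ hs0.le hst1.le K)
  obtain ⟨h0, hh0⟩ := eventually_atTop.1 ((ev_short hs0 hs1.le hsK).and
    ((ev_long hρ0 hρK (((K : ℝ) + 1) / (1 - ρ)) (δ / 2) (by linarith)).and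
      (eventually_ge_atTop 1)))
  have hBigW : ∀ h ≥ h0, ∀ u, ∀ A, Big P (K * h) u (4 * 2 ^ ((K - e) * h) * h) (K + 1) A →
      ∑ g ∈ A, t ^ g.length ≤ δ := by
    intro h hh u A hA
    have h1 := Big_W P hp1 hq1 ht0 htt1 hA
    have h2 := hlo1 lo hlo11
    have h3 := (hh0 h hh).2.1
    refine h1.trans ?_
    have h4 : ((K + 1 : ℕ) : ℝ) * (ρ ^ lo / (1 - ρ)) ≤ δ / 2 := by
      refine le_trans (le_of_eq ?_) h2
      push_cast
      ring
    have h5 : (((K + 1) * (4 * 2 ^ ((K - e) * h) * h) : ℕ) : ℝ) * (ρ ^ (K * h) / (1 - ρ)) ≤ δ / 2 := by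
      refine le_trans (le_of_eq ?_) h3
      push_cast
      ring
    have h6 := add_le_add h4 h5
    have h7 : δ / 2 + δ / 2 = δ := by ring
    exact le_of_le_of_eq h6 h7
  have hDF : ∀ g ∈ D, g ∈ F := fun g hg => ((hD g).1 hg).1
  by_cases hcase : ∃ h ≥ h0, ∀ v ≥ K * h, ∃ A, Big P (K * h) (C1 * (v + 1))
      (4 * 2 ^ ((K - e) * h) * h) (K + 1) A ∧ NN P G (K * h) v A = ∅
  · -- the opponent wins: the functional is made undefined
    obtain ⟨h, hh, hA⟩ := hcase
    obtain ⟨a, ha⟩ : ∃ a : ℕ → Finset (List Bool), ∀ v, Big P (K * h) (C1 * (v + K * h + 1))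
        (4 * 2 ^ ((K - e) * h) * h) (K + 1) (a v) ∧ NN P G (K * h) (v + K * h) (a v) = ∅ :=
      ⟨fun v => (hA (v + K * h) (by omega)).choose,
        fun v => (hA (v + K * h) (by omega)).choose_spec⟩
    have haW : ∀ v, ∑ g ∈ a v, t ^ g.length ≤ δ := fun v => hBigW h hh _ _ (ha v).1
    have hGW : WLe t (Ginf a) δ := Ginf_W ht0.le haW
    obtain ⟨Tn, hTn⟩ : ∃ Tn : ℕ, Tn = 4 * 2 ^ ((K - e) * h) * h := ⟨_, rfl⟩
    have haT : ∀ v r, (cnt (a v) r : ℝ) ≤ (((K + 1) * (Tn + 1) : ℕ) : ℝ) * (1 / t1) ^ r := by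
      intro v r
      have h1 := (ha v).1.2 r
      have h2 : cnt (a v) r * p1 ^ r ≤ ((K + 1) * (Tn + 1)) * q1 ^ r := by
        refine h1.trans (Nat.mul_le_mul_right _ ?_)
        rw [← hTn]
        split_ifs
        · exact Nat.le_mul_of_pos_right _ (by omega)
        · exact Nat.mul_le_mul_left _ (by omega)
      have h3 : (cnt (a v) r : ℝ) * p1 ^ r ≤ (((K + 1) * (Tn + 1) : ℕ) : ℝ) * q1 ^ r := by
        exact_mod_cast h2
      have h4 : (1 / t1) ^ r = (q1 : ℝ) ^ r / p1 ^ r := by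
        rw [ht1def, one_div_div, div_pow]
      rw [h4, ← mul_div_assoc, le_div_iff₀ (by positivity)]
      exact h3
    have hGT := Ginf_Typ haT
    have hF'W : WLe t (F ∪ Ginf a) (w + δ) := hW.union hGW
    have hF'P : PLe t (F ∪ Ginf a) x (1 / 4 + MM t x.length * δ) :=
      hPx.union (hGW.toP ht0 ht1 x)
    obtain ⟨b, hb⟩ := step_ext ht0 hF'P hF'W
    have hρ2 : 1 / (2 * t) < 1 := by
      rw [div_lt_one (by linarith)]; linarith
    have hρ20 : 0 < 1 / (2 * t) := by positivity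
    have hb' : PLe t (F ∪ Ginf a) (x ++ [b]) (1 / 4) := by
      refine hb.mono subset_rfl ?_
      have h1 : 1 / (2 * t) * (1 / 4 + MM t x.length * δ) ≤ 1 / (2 * t) * (1 / 4) + wm := by
        have : 1 / (2 * t) * (MM t x.length * δ) ≤ 1 * wm :=
          mul_le_mul hρ2.le hδM (by positivity) zero_le_one
        linarith
      have h2 : 1 / (2 * t) * (1 / 4) + wm + wm = 1 / 4 := by
        rw [hwm]; ring
      linarith
    refine ⟨F ∪ Ginf a, x ++ [b], τ', ⟨hb', ⟨w + δ, hδw, by linarith, hF'W⟩,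
      ⟨t1, hst1, C + (((K + 1) * (Tn + 1) : ℕ) : ℝ), by positivity, ?_⟩, hτ'1, by linarith⟩,
      Set.subset_union_left, List.prefix_append _ _, by simp, hτ'2.le, ?_, Or.inr ⟨K * h, ?_⟩⟩
    · exact (hTyp.mono ht10 ht1tF.le hC0 le_rfl).union hGT
    · intro n h1 h2
      have h3 : n = x.length + 1 := by
        rw [List.length_append, List.length_singleton] at h2
        omega
      subst h3
      rw [List.take_of_length_le (by simp)]
      exact hb'.mono Set.subset_union_left (by linarith)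
    · intro X hX hXP
      have hxX : x = pre X x.length := by
        have h1 : x <+: pre X (x ++ [b]).length := by
          rw [hX]; exact List.prefix_append _ _
        exact pre_eq_of_prefix h1
      refine no_compute P (m := K * h) (a := a) (t1 := t1) (C := (((K + 1) * (Tn + 1) : ℕ) : ℝ))
        (w := wm) (θ' := τ') (F := F) hG ht ht1 htt1 (Nat.cast_nonneg _) (fun v => (ha v).2) haT
        le_rfl ?_ ?_ hθ1 hDF hxX ?_
      · intro v
        have h1 : WLe t (F ∪ (↑(a v) : Set (List Bool))) (w + δ) := by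
          refine hW.union ?_
          intro B hB
          exact (Finset.sum_le_sum_of_subset_of_nonneg (fun g hg => hB g hg)
            fun _ _ _ => pow_nonneg ht0.le _).trans (haW v)
        refine h1.mono ?_ hδw.le
        intro g hg
        rw [Finset.mem_coe, mem_union, List.mem_toFinset] at hg
        rcases hg with hg | hg
        · exact Or.inl (hDF g hg)
        · exact Or.inr hg
      · show 1 / 8 ≤ (tn : ℝ) / td
        linarith
      · intro n hn
        have hn' : x.length < n := hn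
        rcases Nat.lt_or_ge (x ++ [b]).length n with h3 | h3
        · exact hXP n h3
        · have h4 : n = (x ++ [b]).length := by
            rw [List.length_append, List.length_singleton] at h3 ⊢
            omega
          rw [h4, hX]
          exact hb'.mono subset_rfl (by linarith)
  · -- the opponent loses: a simple string is computed
    push Not at hcase
    have hwit : ∀ h ≥ h0, ∃ V, WIT P G (h, V) := by
      intro h hh
      obtain ⟨v, hv, hvA⟩ := hcase h hh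
      obtain ⟨e1, e2, e3⟩ := hh0 h hh
      refine wit_of_caseB P hq htd (T := 4 * 2 ^ ((K - e) * h) * h) (v := v) e3 heK ?_ le_rfl ?_ ?_
      · show K * h ≤ C1 * (v + 1)
        have h1 : 1 * (v + 1) ≤ C1 * (v + 1) := Nat.mul_le_mul_right _ (by omega)
        omega
      · refine card_Sh_lt P hs0 hs1.le hp1 ?_ e1
        show s * q1 ≤ p1
        rw [lt_div_iff₀ hq1'] at hst1
        exact hst1.le
      · intro A hA
        exact hvA A hA
    obtain ⟨C3, hC3⟩ := select hU e (s1_WIT P hGS) (fun h V hV => hV.1.2)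
    obtain ⟨h, hcomp, hh⟩ := ((ev_compl heβ C3 c).and (eventually_ge_atTop h0)).exists
    obtain ⟨V, hV1, hV2⟩ := hC3 h (hwit h hh)
    obtain ⟨z, wd, hz1, hz2, hwV, hwl, hwc⟩ := use_wit P hq htd hp1 hq1 ht0 ht1 htt1 hV1
      (F := F) hD hcntF hC1lo (τ := τ) hC1
    obtain ⟨x', hx'1, hx'2, hx'3, hx'4⟩ := relax_end ht hw1.le hτ hτ1 hPx hz1 hz2 hW
    refine ⟨F, x', τ', ⟨hx'3, ⟨w, hw1, hw0, hW⟩, ⟨tF, htF, C, hC0, hTyp⟩, hτ'1, by linarith⟩,
      subset_rfl, hz1.trans hx'1, hx'2, hτ'2.le, hx'4, Or.inl ⟨wd, ?_, ?_⟩⟩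
    · intro i hi
      rw [hwl] at hi
      exact hG _ _ _ _ hx'1 (hwc i hi)
    · have h1 := hV2 wd hwV
      have h2 : (KU U wd : ℝ) ≤ ((e : ℝ) + 1) * h + C3 := by exact_mod_cast h1
      have h3 : (wd.length : ℝ) = ((K * h : ℕ) : ℝ) := by
        rw [hwl]
      rw [h3]
      linarith

end Pool.Agent.W968.SCx
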