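import Mathlib
import Pool.Agent.W968.SCx.Stage

set_option autoImplicit false

namespace Pool.Agent.W968.SCx

open Pool.Agent.Helper227 Pool.Agent.H561R3 Finset Filter

/-- The block of `l` consecutive bits of `X` starting at position `k`. -/
def block (X : ℕ → Bool) (k l : ℕ) : List Bool := (List.range l).map fun i => X (k + i)

/-- The `δ`-shift complex sequences: for some constant `c` every block `σ` of `X` satisfies
`K(σ) ≥ δ |σ| - c`. -/
def SC (U : List Bool →. List Bool) (δ : ℝ) : Set (ℕ → Bool) :=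
  {X | ∃ c : ℕ, ∀ k l : ℕ, δ * l - c ≤ (KU U (block X k l) : ℝ)}

/-- Weak (Muchnik) reducibility `P ≤_w Q`: every element of `Q` Turing-computes an element
of `P`. -/
def WeakLe (P Q : Set (ℕ → Bool)) : Prop := ∀ Y ∈ Q, ∃ X ∈ P, TLe X Y

theorem block_suffix (X : ℕ → Bool) (k l : ℕ) : block X k l <:+ pre X (k + l) := by
  refine ⟨pre X k, ?_⟩
  unfold block pre
  rw [List.range_add, List.map_append, List.map_map]
  rfl

@[simp] theorem length_block (X : ℕ → Bool) (k l : ℕ) : (block X k l).length = l := by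
  simp [block]

/-- the initially forbidden strings -/
def F0 (U : List Bool →. List Bool) (α : ℝ) (c : ℕ) : Set (List Bool) :=
  {σ | (KU U σ : ℝ) < α * σ.length - c}

open Classical in
theorem F0_typ {U : List Bool →. List Bool} (hU : IsUniversal U) (α : ℝ) (c : ℕ) :
    Typ ((2 : ℝ) ^ (-α)) (2 * (1 / 2) ^ c) (F0 U α c) := by
  intro A hA r
  have hpow : (1 / (2 : ℝ) ^ (-α)) ^ r = (2 : ℝ) ^ (α * r) := by
    rw [Real.rpow_neg two_pos.le, one_div, inv_inv, Real.rpow_mul two_pos.le, Real.rpow_natCast]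
  rw [hpow]
  set B := A.filter (fun g => g.length = r) with hB
  have hBmem : ∀ g ∈ B, (KU U g : ℝ) < α * r - c := by
    intro g hg
    have h1 := mem_filter.1 hg
    have h2 : (KU U g : ℝ) < α * g.length - c := hA g h1.1
    rwa [h1.2] at h2
  rcases le_or_gt (α * r - c) 0 with h0 | h0
  · have h1 : cnt A r = 0 := by
      unfold cnt
      rw [← hB, Finset.card_eq_zero]
      rw [Finset.eq_empty_iff_forall_notMem]
      intro g hg
      have h2 := hBmem g hg
      have h3 : (0 : ℝ) ≤ KU U g := Nat.cast_nonneg _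
      linarith
    rw [h1, Nat.cast_zero]
    positivity
  · obtain ⟨N, hN⟩ : ∃ N : ℕ, N = ⌈α * r - c⌉₊ := ⟨_, rfl⟩
    have hN1 : (N : ℝ) < α * r - c + 1 := by
      rw [hN]; exact Nat.ceil_lt_add_one h0.le
    have hN2 : α * r - c ≤ N := by rw [hN]; exact Nat.le_ceil _
    have hN0 : 0 < N := by
      rw [hN]; exact Nat.ceil_pos.2 h0
    choose prog hprog1 hprog2 using fun y => hU.exists_min y
    have hcard : B.card ≤ (upTo (N - 1)).toFinset.card := by
      refine Finset.card_le_card_of_injOn prog ?_ ?_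
      · intro g hg
        have h1 := hBmem g hg
        have h2 : KU U g < N := by exact_mod_cast h1.trans_le hN2
        rw [Finset.mem_coe, List.mem_toFinset, mem_upTo, hprog1]
        omega
      · intro g _ g' _ hgg
        have h1 := hprog2 g
        have h2 := hprog2 g'
        rw [hgg] at h1
        exact Part.mem_unique h1 h2
    have h2 := card_upTo (N - 1)
    have h3 : N - 1 + 1 = N := by omega
    rw [h3] at h2
    have h4 : cnt A r ≤ 2 ^ N := by
      have : cnt A r = B.card := rfl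
      omega
    have h5 : (cnt A r : ℝ) ≤ (2 : ℝ) ^ (N : ℝ) := by
      rw [Real.rpow_natCast]
      exact_mod_cast h4
    refine h5.trans ?_
    have h6 : (2 : ℝ) ^ (N : ℝ) ≤ (2 : ℝ) ^ (α * r - c + 1) :=
      Real.rpow_le_rpow_of_exponent_le one_le_two hN1.le
    refine h6.trans (le_of_eq ?_)
    rw [Real.rpow_add two_pos, Real.rpow_sub two_pos, Real.rpow_one, Real.rpow_natCast]
    rw [one_div, inv_pow]
    ring

theorem F0_W {U : List Bool →. List Bool} (hU : IsUniversal U) {α t : ℝ} (ht0 : 0 < t)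
    (ht : t < (2 : ℝ) ^ (-α)) (c : ℕ) :
    WLe t (F0 U α c) ((2 * (1 / (1 - t / (2 : ℝ) ^ (-α)))) * (1 / 2) ^ c) := by
  have h2 : (0 : ℝ) < (2 : ℝ) ^ (-α) := Real.rpow_pos_of_pos two_pos _
  intro A hA
  have h1 := F0_typ hU α c A hA
  have h3 := W_geom (t := t) (ρ := t / (2 : ℝ) ^ (-α)) (c := 2 * (1 / 2) ^ c) (lo := 0)
    (by positivity) (by rw [div_lt_one h2]; exact ht) (by positivity) A (fun _ _ => Nat.zero_le _)
    (fun r _ => by
      refine (mul_le_mul_of_nonneg_right (h1 r) (pow_pos ht0 r).le).trans (le_of_eq ?_)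
      rw [div_pow, div_pow, one_pow]
      ring)
  refine h3.trans (le_of_eq ?_)
  rw [pow_zero]
  ring

theorem exists_c0 {U : List Bool →. List Bool} (hU : IsUniversal U) {α s t : ℝ} (ht : 1 / 2 < t)
    (hts : t < s) (hsα : s < (2 : ℝ) ^ (-α)) (hs1 : s < 1) :
    ∃ c : ℕ, Good t s (F0 U α c) [] (3 / 4) := by
  have ht0 : 0 < t := by linarith
  have h2 : (0 : ℝ) < (2 : ℝ) ^ (-α) := Real.rpow_pos_of_pos two_pos _
  have hρ2 : 1 / (2 * t) < 1 := by
    rw [div_lt_one (by linarith)]; linarith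
  have hwm : 0 < (1 - 1 / (2 * t)) / 8 := by linarith
  have hlt : t / (2 : ℝ) ^ (-α) < 1 := by rw [div_lt_one h2]; linarith
  have hpos : 0 < 1 - t / (2 : ℝ) ^ (-α) := by linarith
  obtain ⟨c, hc⟩ := exists_small_pow (ρ := 1 / 2) (by norm_num) (by norm_num)
    (2 * (1 / (1 - t / (2 : ℝ) ^ (-α)))) (min ((1 - 1 / (2 * t)) / 16) (1 / 4))
    (lt_min (by linarith) (by norm_num))
  have hW := F0_W hU ht0 (hts.trans hsα) c
  have hc1 := (hc c le_rfl).trans (min_le_left _ _)
  have hc2 := (hc c le_rfl).trans (min_le_right _ _)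
  refine ⟨c, ?_, ⟨_, ?_, ?_, hW⟩, ⟨(2 : ℝ) ^ (-α), hsα, 2 * (1 / 2) ^ c, by positivity,
    F0_typ hU α c⟩, by norm_num, by norm_num⟩
  · have h3 := hW.toP ht0 (by linarith) []
    refine h3.mono subset_rfl ?_
    have h4 : MM t ([] : List Bool).length = 1 := by simp [MM]
    rw [h4, one_mul]
    exact hc2
  · linarith
  · positivity

/-- countably many requirements -/
theorem exists_enum : ∃ f : ℕ → {G : List Bool × ℕ × ℕ → Prop // S1 G ∧
    ∀ σ τ n m, σ <+: τ → G (σ, n, m) → G (τ, n, m)} × ℕ, Function.Surjective f := by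
  have hcount : Countable {G : List Bool × ℕ × ℕ → Prop // S1 G ∧
    ∀ σ τ n m, σ <+: τ → G (σ, n, m) → G (τ, n, m)} := by
    have h1 : ∀ G : {G : List Bool × ℕ × ℕ → Prop // S1 G ∧
        ∀ σ τ n m, σ <+: τ → G (σ, n, m) → G (τ, n, m)}, ∃ c : Nat.Partrec.Code,
          ∀ a, G.1 a ↔ (c.eval (Encodable.encode a)).Dom := by
      intro G
      obtain ⟨c, hc⟩ := Nat.Partrec.Code.exists_code.1 (S1.re G.2.1)
      refine ⟨c, fun a => ?_⟩
      rw [hc]
      simp [Part.assert]
    choose cd hcd using h1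
    refine Function.Injective.countable (f := cd) ?_
    intro G G' h
    refine Subtype.ext (funext fun a => propext ?_)
    rw [hcd G a, hcd G' a, h]
  have hne : Nonempty {G : List Bool × ℕ × ℕ → Prop // S1 G ∧
    ∀ σ τ n m, σ <+: τ → G (σ, n, m) → G (τ, n, m)} :=
    ⟨⟨fun _ => False, S1.of_prim (PP.const False), fun _ _ _ _ _ h => h⟩⟩
  exact exists_surjective_nat _

theorem toNat_inj {a b : Bool} (h : a.toNat = b.toNat) : a = b := by
  cases a <;> cases b <;> simp_all

/-- The main theorem. -/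
theorem main {U : List Bool →. List Bool} (hU : IsUniversal U) {α β : ℝ} (hα : 0 < α)
    (hαβ : α < β) (hβ : β < 1) : ∃ X ∈ SC U α, ∀ Y, TLe Y X → Y ∉ SC U β := by
  obtain ⟨s, K, e, p, q, hs, hsα, hs1, heK, hsK, heβ, hq, ht, hts, hKt⟩ :=
    exists_params hα hαβ hβ
  obtain ⟨c0, hgood0⟩ := exists_c0 hU ht hts hsα hs1
  obtain ⟨f, hf⟩ := exists_enum
  set t := (p : ℝ) / q with htdef
  have ht0 : 0 < t := by linarith
  let St := {S : Set (List Bool) × List Bool × ℝ // Good t s S.1 S.2.1 S.2.2}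
  have hstep : ∀ (k : ℕ) (S : St), ∃ S' : St, S.1.1 ⊆ S'.1.1 ∧ S.1.2.1 <+: S'.1.2.1 ∧
      S.1.2.1.length < S'.1.2.1.length ∧ S'.1.2.2 ≤ S.1.2.2 ∧
      (∀ n, S.1.2.1.length < n → n ≤ S'.1.2.1.length →
        PLe t S.1.1 (S'.1.2.1.take n) S.1.2.2) ∧
      ((∃ w : List Bool, (∀ i < w.length, (f k).1.1 (S'.1.2.1, i, (w.getD i false).toNat)) ∧
          (KU U w : ℝ) < β * w.length - (f k).2) ∨
        (∃ m : ℕ, ∀ X : ℕ → Bool, pre X S'.1.2.1.length = S'.1.2.1 →
          (∀ n > S'.1.2.1.length, PLe t S'.1.1 (pre X n) S'.1.2.2) →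
          ¬ ∃ w : List Bool, w.length = m ∧
            ∀ i < m, ∃ n, (f k).1.1 (pre X n, i, (w.getD i false).toNat))) := by
    intro k S
    obtain ⟨F', x', τ', h1, h2, h3, h4, h5, h6, h7⟩ := stage hU hs hs1 heK hsK heβ hq ht hts hKt
      (f k).1.2.1 (f k).1.2.2 (f k).2 S.2
    exact ⟨⟨(F', x', τ'), h1⟩, h2, h3, h4, h5, h6, h7⟩
  choose nx hnx using hstep
  let sq : ℕ → St := fun k => Nat.rec ⟨(F0 U α c0, [], 3 / 4), hgood0⟩ (fun k S => nx k S) k
  have hsq : ∀ k, sq (k + 1) = nx k (sq k) := fun k => rfl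
  obtain ⟨Fk, hFk⟩ : ∃ Fk : ℕ → Set (List Bool), ∀ k, Fk k = (sq k).1.1 := ⟨_, fun _ => rfl⟩
  obtain ⟨xk, hxk⟩ : ∃ xk : ℕ → List Bool, ∀ k, xk k = (sq k).1.2.1 := ⟨_, fun _ => rfl⟩
  obtain ⟨τk, hτk⟩ : ∃ τk : ℕ → ℝ, ∀ k, τk k = (sq k).1.2.2 := ⟨_, fun _ => rfl⟩
  have hx0 : xk 0 = [] := hxk 0
  have hF0 : Fk 0 = F0 U α c0 := hFk 0
  have hτ0 : τk 0 = 3 / 4 := hτk 0
  have hP : ∀ k, Fk k ⊆ Fk (k + 1) ∧ xk k <+: xk (k + 1) ∧
      (xk k).length < (xk (k + 1)).length ∧ τk (k + 1) ≤ τk k ∧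
      (∀ n, (xk k).length < n → n ≤ (xk (k + 1)).length →
        PLe t (Fk k) ((xk (k + 1)).take n) (τk k)) ∧
      ((∃ w : List Bool, (∀ i < w.length, (f k).1.1 (xk (k + 1), i, (w.getD i false).toNat)) ∧
          (KU U w : ℝ) < β * w.length - (f k).2) ∨
        (∃ m : ℕ, ∀ X : ℕ → Bool, pre X (xk (k + 1)).length = xk (k + 1) →
          (∀ n > (xk (k + 1)).length, PLe t (Fk (k + 1)) (pre X n) (τk (k + 1))) →
          ¬ ∃ w : List Bool, w.length = m ∧
            ∀ i < m, ∃ n, (f k).1.1 (pre X n, i, (w.getD i false).toNat))) := by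
    intro k
    have h := hnx k (sq k)
    rw [← hsq k] at h
    simp only [hFk, hxk, hτk]
    exact h
  have hFmono : ∀ j k, j ≤ k → Fk j ⊆ Fk k := by
    intro j k hjk
    induction k, hjk using Nat.le_induction with
    | base => exact subset_rfl
    | succ k _ ih => exact ih.trans (hP k).1
  have hxmono : ∀ j k, j ≤ k → xk j <+: xk k := by
    intro j k hjk
    induction k, hjk using Nat.le_induction with
    | base => exact List.prefix_refl _
    | succ k _ ih => exact ih.trans (hP k).2.1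
  have hτmono : ∀ j k, j ≤ k → τk k ≤ τk j := by
    intro j k hjk
    induction k, hjk using Nat.le_induction with
    | base => exact le_rfl
    | succ k _ ih => exact (hP k).2.2.2.1.trans ih
  have hlen : ∀ k, k ≤ (xk k).length := by
    intro k
    induction k with
    | zero => exact Nat.zero_le _
    | succ k ih => have := (hP k).2.2.1; omega
  -- the limit
  obtain ⟨X, hX⟩ : ∃ X : ℕ → Bool, ∀ i, X i = (xk (i + 1)).getD i false := ⟨_, fun _ => rfl⟩
  have hXk : ∀ k, pre X (xk k).length = xk k := by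
    intro k
    refine List.ext_getElem (by simp) fun i h1 h2 => ?_
    rw [getElem_pre, hX]
    have h3 : i < (xk (i + 1)).length := by
      have := hlen (i + 1); omega
    rw [List.getD_eq_getElem _ _ h3]
    rcases Nat.le_total (i + 1) k with h | h
    · exact (hxmono _ _ h).getElem h3
    · exact ((hxmono _ _ h).getElem h2).symm
  have hpath : ∀ k n, (xk k).length < n → PLe t (Fk k) (pre X n) (τk k) := by
    intro k n hn
    have hex : ∃ j, n ≤ (xk j).length := ⟨n, hlen n⟩
    obtain ⟨j, hj, hjmin⟩ : ∃ j, n ≤ (xk j).length ∧ ∀ m < j, ¬ n ≤ (xk m).length :=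
      ⟨Nat.find hex, Nat.find_spec hex, fun m hm => Nat.find_min hex hm⟩
    have hkj : k < j := by
      by_contra hc
      push Not at hc
      have := (hxmono j k hc).length_le
      omega
    obtain ⟨i, rfl⟩ : ∃ i, j = i + 1 := ⟨j - 1, by omega⟩
    have h1 : (xk i).length < n := by
      have := hjmin i (by omega)
      omega
    have h2 := (hP i).2.2.2.2.1 n h1 hj
    have h3 : (xk (i + 1)).take n = pre X n := by
      rw [← hXk (i + 1), take_pre _ _ _ hj]
    rw [h3] at h2
    exact h2.mono (hFmono k i (by omega)) (hτmono k i (by omega))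
  refine ⟨X, ⟨c0, fun k l => ?_⟩, ?_⟩
  · have h1 : PLe t (F0 U α c0) (pre X (k + l)) (3 / 4) := by
      rcases Nat.eq_zero_or_pos (k + l) with h0 | h0
      · rw [h0]
        have h2 : pre X 0 = [] := rfl
        rw [h2]
        exact hgood0.1.mono subset_rfl (by norm_num)
      · have h2 := hpath 0 (k + l) (by rw [hx0]; exact h0)
        rw [hF0, hτ0] at h2
        exact h2
    have h2 := h1.not_mem ht0.le (by norm_num) (block_suffix X k l)
    unfold F0 at h2
    rw [Set.mem_ofPred_eq, length_block, not_lt] at h2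
    exact h2
  · rintro Y hYX ⟨c, hYc⟩
    obtain ⟨G, hGS, hG, hGe⟩ := recIn_graph (RecursiveIn.iff_nat.1 hYX)
    obtain ⟨k, hk⟩ := hf (⟨G, hGS, hG⟩, c)
    have hreq := (hP k).2.2.2.2.2
    rw [hk] at hreq
    rcases hreq with ⟨w, hw1, hw2⟩ | ⟨m, hm⟩
    · have hwY : w = block Y 0 w.length := by
        refine List.ext_getElem (by simp) fun i h1 h2 => ?_
        have h3 := hw1 i h1
        have h4 : (w.getD i false).toNat ∈ chi Y i := by
          refine (hGe _ _).2 ⟨(xk (k + 1)).length, ?_⟩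
          rw [hXk]
          exact h3
        unfold chi at h4
        rw [Part.mem_some_iff] at h4
        have h5 := toNat_inj h4
        rw [List.getD_eq_getElem _ _ h1] at h5
        rw [h5]
        simp [block]
      have h1 := hYc 0 w.length
      rw [← hwY] at h1
      linarith
    · refine hm X (hXk (k + 1)) (fun n hn => hpath (k + 1) n hn) ⟨block Y 0 m, by simp, ?_⟩
      intro i hi
      have h1 : (Y i).toNat ∈ chi Y i := Part.mem_some _
      obtain ⟨s', hs'⟩ := (hGe _ _).1 h1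
      refine ⟨s', ?_⟩
      have h2 : (block Y 0 m).getD i false = Y i := by
        rw [List.getD_eq_getElem _ _ (by simpa using hi)]
        simp [block]
      rw [h2]
      exact hs'

end Pool.Agent.W968.SCx
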